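import Pool.Agent.H441.DQ.Curve
import Pool.Agent.H441.DF.Geo

/-!
Embedding of projective varieties in intersections of diagonal hypersurfaces; general linear forms.
-/

set_option autoImplicit false

namespace Pool.Agent.H441.DQ

open MvPolynomial Pool.Agent.W603.BP Metric
open Pool.Agent.N254.SQ hiding Extends lin
open Pool.Agent.H441.DF (diagonal diag_eval₂ diag_aeval diag_hom exists_mon aeval_mon mon_ext Cut
  exists_cut bound le_bound fibre_finite lin_hom mult)
open scoped LinearAlgebra.Projectivization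

/-- the values of the linear forms with the coefficients `A j` -/
def lins {K R : Type} [Field K] [Field R] (τ : K →+* R) {M N : ℕ}
    (A : Fin (N + 1) → Fin (M + 1) → K) (w : Fin (M + 1) → R) : Fin (N + 1) → R :=
  fun j => ∑ l, τ (A j l) * w l

section linsec

variable {K R : Type} [Field K] [Field R] (τ : K →+* R) {M N m B : ℕ}
  {A : Fin (N + 1) → Fin (M + 1) → K}

theorem lins_smul (c : R) (w : Fin (M + 1) → R) : lins τ A (c • w) = c • lins τ A w := by
  funext j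
  unfold lins
  rw [Pi.smul_apply, smul_eq_mul, Finset.mul_sum]
  refine Finset.sum_congr rfl fun l _ => ?_
  rw [Pi.smul_apply, smul_eq_mul]
  ring

theorem lins_unit {j : Fin (N + 1)} {l : Fin (M + 1)} (h : A j = Pi.single l 1)
    (w : Fin (M + 1) → R) : lins τ A w j = w l := by
  unfold lins
  rw [h, Finset.sum_eq_single l]
  · rw [Pi.single_eq_same, map_one, one_mul]
  · intro l' _ hl'
    rw [Pi.single_eq_of_ne hl', map_zero, zero_mul]
  · intro h
    exact absurd (Finset.mem_univ l) h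

theorem lins_inj (ha : Box B A) (hB : 1 ≤ B) {w w' : Fin (M + 1) → R}
    (h : lins τ A w = lins τ A w') : w = w' := by
  funext l
  obtain ⟨j, hj⟩ := box_unit ha hB l
  rw [← lins_unit τ hj w, ← lins_unit τ hj w', h]

theorem lins_ne (ha : Box B A) (hB : 1 ≤ B) {w : Fin (M + 1) → R} (hw : w ≠ 0) :
    lins τ A w ≠ 0 := by
  intro h
  apply hw
  apply lins_inj τ ha hB
  rw [h]
  funext j
  simp [lins]

theorem lins_prop (ha : Box B A) (hB : 1 ≤ B) {w w' : Fin (M + 1) → R} {c : R}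
    (h : lins τ A w = c • lins τ A w') : w = c • w' := by
  apply lins_inj τ ha hB
  rw [h, lins_smul]

end linsec

section main

set_option linter.unusedSectionVars false

variable {K : Type} [Field K] [CharZero K] {M N m B : ℕ} {A : Fin (N + 1) → Fin (M + 1) → K}

/-- equations for the union of the copies -/
theorem zeq (hm : 2 ≤ m) (ha : Box B A) (hB : m ≤ B) {ι : Type} [Finite ι]
    (q : ι → MvPolynomial (Fin (M + 1)) K) (hq : ∀ i, (q i).IsHomogeneous 2) :
    ∃ (κ : Type) (_ : Finite κ) (Z : κ → MvPolynomial (Fin (N + 1)) K),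
      (∀ s, (Z s).IsHomogeneous (m * 2)) ∧
      (∀ (Ω : Type) [Field Ω] [Algebra K Ω] (w : Fin (M + 1) → Ω) (y : Fin (N + 1) → Ω) (t : Ω),
        (∀ i, aeval w (q i) = 0) → (∀ j, y j ^ m = t * (lins (algebraMap K Ω) A w j) ^ m) →
          ∀ s, aeval y (Z s) = 0) ∧
      ∀ (Ω : Type) [Field Ω] [Algebra K Ω] (y : Fin (N + 1) → Ω), y ≠ 0 →
        (∀ c, comb m A c = 0 → ∑ j, algebraMap K Ω (c j) * y j ^ m = 0) →
        (∀ s, aeval y (Z s) = 0) → ∃ (w : Fin (M + 1) → Ω) (t : Ω), w ≠ 0 ∧ t ≠ 0 ∧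
          (∀ i, aeval w (q i) = 0) ∧ ∀ j, y j ^ m = t * (lins (algebraMap K Ω) A w j) ^ m := by
  classical
  obtain ⟨M', v', hv'⟩ := exists_mon M m
  obtain ⟨ι', _, Q, hQ, hQv, hQw⟩ := t_ver K M M' m v' hv' (by omega) ι q (fun _ => 2) hq
    (fun _ => hm)
  have hhom : ∀ β, (∏ l, X l ^ v' β l : MvPolynomial (Fin (M + 1)) K).IsHomogeneous m := by
    intro β
    have h1 : (∏ l, X l ^ v' β l : MvPolynomial (Fin (M + 1)) K).IsHomogeneous
        (∑ l, 1 * v' β l) :=
      IsHomogeneous.prod _ _ _ fun l _ => (isHomogeneous_X K l).pow _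
    simp only [one_mul] at h1
    rwa [hv'.deg] at h1
  choose μ hμ using fun β => comb_surj (m := m) ha hB (hhom β)
  refine ⟨ι', inferInstance, fun s => aeval (fun β => diagonal m (μ β)) (Q s), fun s => ?_, ?_, ?_⟩
  · exact (hQ s).aeval _ fun β => diag_hom (μ β)
  · intro Ω _ _ w y t hw hy s
    rw [← AlgHom.comp_apply]
    have e1 : (aeval y).comp (aeval fun β => diagonal m (μ β)) = aeval (t • ver v' w) := by
      apply MvPolynomial.algHom_ext
      intro β
      rw [AlgHom.comp_apply, aeval_X, aeval_X, diag_aeval]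
      have h1 := comb_eval (m := m) (A := A) (μ β) w
      rw [hμ, aeval_mon] at h1
      rw [Pi.smul_apply, smul_eq_mul, h1, Finset.mul_sum]
      refine Finset.sum_congr rfl fun j _ => ?_
      rw [hy j]
      unfold lins
      ring
    rw [e1]
    exact blvp_zero _ ⟨2, hQ s⟩ (hQv Ω w hw s)
  · intro Ω _ _ y hy hrel hZ
    obtain ⟨L, hL⟩ := exists_fun (m := m) (A := A) (Y := fun j => y j ^ m) hrel
    have hLμ : ∀ β, L (∏ l, X l ^ v' β l) = ∑ j, algebraMap K Ω (μ β j) * y j ^ m := by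
      intro β
      rw [← hμ β, comb_apply, map_sum]
      refine Finset.sum_congr rfl fun j _ => ?_
      rw [map_smul, hL, Algebra.smul_def]
    have hY0 : (fun β => L (∏ l, X l ^ v' β l)) ≠ 0 := by
      intro h0
      apply hy
      funext j
      have h1 := mon_ext (m := m) hv' (L := L) (L' := 0) (fun β => congrFun h0 β)
        (linK_hom (A j) m)
      rw [hL, LinearMap.zero_apply] at h1
      exact eq_zero_of_pow_eq_zero h1
    have hQY : ∀ s, aeval (fun β => L (∏ l, X l ^ v' β l)) (Q s) = 0 := by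
      intro s
      have h1 := hZ s
      rw [← AlgHom.comp_apply] at h1
      have e1 : (aeval y).comp (aeval fun β => diagonal m (μ β)) =
          aeval (fun β => L (∏ l, X l ^ v' β l)) := by
        apply MvPolynomial.algHom_ext
        intro β
        rw [AlgHom.comp_apply, aeval_X, aeval_X, diag_aeval, hLμ]
      rwa [e1] at h1
    obtain ⟨x, a₀, b₀, hxa, hb, hx, hqx⟩ := (hQw Ω _ hY0 hQY).2
    refine ⟨x, L (∏ l, X l ^ v' b₀ l), ?_, hb, hqx, fun j => ?_⟩
    · rintro rfl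
      exact zero_ne_one hxa
    · have h1 := mon_ext (m := m) hv' (L := L)
        (L' := L (∏ l, X l ^ v' b₀ l) • (aeval x).toLinearMap) (fun β => by
          rw [LinearMap.smul_apply, AlgHom.toLinearMap_apply, aeval_mon, smul_eq_mul]
          exact hx β) (linK_hom (A j) m)
      rw [hL, LinearMap.smul_apply, AlgHom.toLinearMap_apply, map_pow, linK_eval, smul_eq_mul] at h1
      exact h1

end main

section pts

variable {K : Type} [Field K] [CharZero K] {n M e N m B : ℕ} {v : Fin (M + 1) → Fin (n + 1) → ℕ}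
  {A : Fin (N + 1) → Fin (M + 1) → K} {ι ι' : Type} {F : ι → MvPolynomial (Fin (n + 1)) K}
  {q : ι' → MvPolynomial (Fin (M + 1)) K} {k : ℕ} {c : Fin k → Fin (N + 1) → K}

/-- the equations in terms of the relations -/
theorem eqs_iff (hc : Submodule.span K (Set.range c) = rel m A q) {Ω : Type} [Field Ω]
    [Algebra K Ω] (y : Fin (N + 1) → Ω) : (∀ i, aeval y (diagonal m (c i)) = 0) ↔
      ∀ c' ∈ rel m A q, ∑ j, algebraMap K Ω (c' j) * y j ^ m = 0 := by
  constructor
  · intro h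
    exact all_rel hc (Y := fun j => y j ^ m) fun i => by
      rw [← diag_aeval]
      exact h i
  · intro h i
    rw [diag_aeval]
    exact h _ (rel_hom hc i)

theorem pts_iff (hm : 2 ≤ m) (ha : Box B A) (hB : m ≤ B) (hC : Cut v F q) (hv : Mon n M e v)
    (he : 1 ≤ e) (hF : ∀ i, ∃ d, (F i).IsHomogeneous d)
    (hc : Submodule.span K (Set.range c) = rel m A q)
    {Ω : Type} [Field Ω] [Algebra K Ω] {x : Fin (n + 1) → Ω} (hx : x ≠ 0) :
    (∀ k, aeval x (F k) = 0) ↔
      ∀ i, aeval (lins (algebraMap K Ω) A (ver v x)) (diagonal m (c i)) = 0 := by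
  rw [eqs_iff hc]
  change _ ↔ ∀ c' ∈ rel m A q, ∑ j, algebraMap K Ω (c' j) *
    (∑ l, algebraMap K Ω (A j l) * ver v x l) ^ m = 0
  rw [← pts_rel hm ha hB hC.hom]
  exact ⟨hC.fwd Ω x, hC.back hv he hF hx⟩

theorem bound_ge (hm : 2 ≤ m) (hB : bound m ≤ B) : m ≤ B ∧ 1 ≤ B := by
  have h1 := le_bound (m := m)
  omega

/-- **Holomorphic maps from the punctured disc.** -/
theorem punct (hm : 2 ≤ m) (ha : Box B A) (hB : bound m ≤ B) (hC : Cut v F q) (hv : Mon n M e v)
    (he : 1 ≤ e) (hF : ∀ i, ∃ d, (F i).IsHomogeneous d)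
    (hc : Submodule.span K (Set.range c) = rel m A q)
    (σ : K →+* ℂ) {f : ℂ → Fin (N + 1) → ℂ} (hf : DifferentiableOn ℂ f (ball 0 1 \ {0}))
    (hf0 : ∀ z ∈ ball (0 : ℂ) 1 \ {0}, f z ≠ 0)
    (hX : ∀ z ∈ ball (0 : ℂ) 1 \ {0}, ∀ i, eval₂ σ (f z) (diagonal m (c i)) = 0)
    (hE : ¬ Extends f) : ∃ ζ : Fin (N + 1) → ℂ, (∀ j, ζ j ^ m = 1) ∧
      ∀ z ∈ ball (0 : ℂ) 1 \ {0}, ∃ x : Fin (n + 1) → ℂ, x ≠ 0 ∧ (∀ k, eval₂ σ x (F k) = 0) ∧
        ∀ j, f z j = ζ j * lins σ A (ver v x) j := by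
  let _ : Algebra K ℂ := σ.toAlgebra
  obtain ⟨ζ, b, hζ, h⟩ := pcurve_rel σ hm ha hB q hf hf0
    (fun z hz => (eqs_iff hc (f z)).1 (hX z hz)) hE
  refine ⟨ζ, hζ, fun z hz => ?_⟩
  have hw0 : (fun l => (ζ (b l))⁻¹ * f z (b l)) ≠ 0 := by
    intro h0
    apply hf0 z hz
    funext j
    rw [h z hz j, Pi.zero_apply]
    have : ∀ l, (ζ (b l))⁻¹ * f z (b l) = 0 := fun l => congrFun h0 l
    simp only [this, mul_zero, Finset.sum_const_zero]
  obtain ⟨x, hx, hwx, hxF⟩ := DF.lift_pt hC hv he hF hw0 (by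
    rw [pts_rel hm ha (bound_ge hm hB).1 hC.hom]
    intro c' hc'
    rw [← (eqs_iff hc (f z)).1 (hX z hz) c' hc']
    refine Finset.sum_congr rfl fun j _ => ?_
    rw [h z hz j, mul_pow, hζ, one_mul]
    rfl)
  refine ⟨x, hx, hxF, fun j => ?_⟩
  rw [h z hz j, ← hwx]
  rfl

/-- **Entire curves.** -/
theorem entire (hm : 2 ≤ m) (ha : Box B A) (hB : bound m ≤ B) (hC : Cut v F q) (hv : Mon n M e v)
    (he : 1 ≤ e) (hF : ∀ i, ∃ d, (F i).IsHomogeneous d)
    (hc : Submodule.span K (Set.range c) = rel m A q)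
    (σ : K →+* ℂ) {f : ℂ → Fin (N + 1) → ℂ} (hf : Differentiable ℂ f) (hf0 : ∀ z, f z ≠ 0)
    (hX : ∀ z i, eval₂ σ (f z) (diagonal m (c i)) = 0) (hE : ∃ z w, ∀ c : ℂ, f w ≠ c • f z) :
    ∃ (ζ : Fin (N + 1) → ℂ) (x : ℂ → Fin (n + 1) → ℂ), (∀ j, ζ j ^ m = 1) ∧
      Differentiable ℂ x ∧ (∀ z, x z ≠ 0) ∧ (∀ z k, eval₂ σ (x z) (F k) = 0) ∧
        ∀ z j, f z j = ζ j * lins σ A (ver v (x z)) j := by
  let _ : Algebra K ℂ := σ.toAlgebra
  obtain ⟨ζ, b, hζ, h⟩ := ecurve_rel σ hm ha hB q hf hf0 (fun z => (eqs_iff hc (f z)).1 (hX z)) hE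
  let w : ℂ → Fin (M + 1) → ℂ := fun z l => (ζ (b l))⁻¹ * f z (b l)
  have hw0 : ∀ z, w z ≠ 0 := by
    intro z h0
    apply hf0 z
    funext j
    rw [h z j, Pi.zero_apply]
    have : ∀ l, (ζ (b l))⁻¹ * f z (b l) = 0 := fun l => congrFun h0 l
    simp only [this, mul_zero, Finset.sum_const_zero]
  have hwd : Differentiable ℂ w := by
    rw [differentiable_pi]
    intro l
    exact ((differentiable_pi.1 hf) (b l)).const_mul _
  have hwq : ∀ z i, aeval (w z) (q i) = 0 := by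
    intro z
    rw [pts_rel hm ha (bound_ge hm hB).1 hC.hom]
    intro c' hc'
    rw [← (eqs_iff hc (f z)).1 (hX z) c' hc']
    refine Finset.sum_congr rfl fun j _ => ?_
    rw [h z j, mul_pow, hζ, one_mul]
    rfl
  obtain ⟨x, hxd, hx⟩ := t_lift n M e v hv he ℂ w hwd (fun z => by
    obtain ⟨x, hx, hwx, -⟩ := DF.lift_pt hC hv he hF (hw0 z) (hwq z)
    exact ⟨x, hx, hwx⟩)
  have hx0 : ∀ z, x z ≠ 0 := by
    intro z h0
    apply hw0 z
    rw [hx z, h0]
    funext l
    unfold ver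
    obtain ⟨i, hi⟩ : ∃ i, v l i ≠ 0 := by
      by_contra hcon
      push Not at hcon
      have h1 := hv.deg l
      rw [Finset.sum_eq_zero fun i _ => hcon i] at h1
      omega
    exact Finset.prod_eq_zero (Finset.mem_univ i) (by rw [Pi.zero_apply, zero_pow hi])
  refine ⟨ζ, x, hζ, hxd, hx0, fun z => hC.back hv he hF (hx0 z) (by
    rw [← hx z]
    exact hwq z), fun z j => ?_⟩
  rw [← hx z]
  exact h z j

end pts

end Pool.Agent.H441.DQ
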