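import Pool.Agent.H441.DQ.Quasi

/-!
Affine schemes.
-/

set_option autoImplicit false

namespace Pool.Agent.H441.DQ

open MvPolynomial NumberField IsDedekindDomain
open Pool.Agent.N254.SQ hiding Extends lin
open scoped LinearAlgebra.Projectivization

/-- every entire curve in `V(F)` lies in `V(G)` -/
def AffCurvesIn {K : Type} [Field K] {ι κ : Type} {n : ℕ} (σ : K →+* ℂ)
    (F : ι → MvPolynomial (Fin n) (𝓞 K)) (G : κ → MvPolynomial (Fin n) (𝓞 K)) : Prop :=
  ∀ f : ℂ → Fin n → ℂ, Differentiable ℂ f →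
    (∀ z i, eval₂ (σ.comp (algebraMap (𝓞 K) K)) (f z) (F i) = 0) → (∃ z w, f z ≠ f w) →
    ∀ z k, eval₂ (σ.comp (algebraMap (𝓞 K) K)) (f z) (G k) = 0

/-- the integral points -/
def AffPointsIn {K : Type} [Field K] {ι κ : Type} {n : ℕ}
    (F : ι → MvPolynomial (Fin n) (𝓞 K)) (G : κ → MvPolynomial (Fin n) (𝓞 K)) : Prop :=
  ∀ (L : Type) [Field L] [NumberField L] [Algebra K L] (S : Set (HeightOneSpectrum (𝓞 L))),
    S.Finite → (intPoints F L S \ intPoints G L S).Finite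

theorem affine_iff {K : Type} [Field K] {ι κ : Type} {n : ℕ} (σ : K →+* ℂ)
    (F : ι → MvPolynomial (Fin n) (𝓞 K)) (G : κ → MvPolynomial (Fin n) (𝓞 K)) :
    AffineBLV σ F G ↔ (AffCurvesIn σ F G ↔ AffPointsIn F G) := Iff.rfl

section

variable {K : Type} [Field K] {ι κ κ' : Type} {n : ℕ}

theorem dehom_eval {Ω : Type} [Field Ω] (τ : K →+* Ω) (A : MvPolynomial (Fin (n + 1)) (𝓞 K))
    (u : Fin n → Ω) : eval₂ (τ.comp (algebraMap (𝓞 K) K)) u (dehom A) =
      eval₂ (τ.comp (algebraMap (𝓞 K) K)) (Fin.cons 1 u : Fin (n + 1) → Ω) A := by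
  rw [blva_dehom, eval_map, eval₂_map]

theorem cons_scale {Ω : Type} [Field Ω] (x : Fin (n + 1) → Ω) (h : x 0 ≠ 0) :
    (Fin.cons 1 (fun j : Fin n => x j.succ / x 0) : Fin (n + 1) → Ω) = (x 0)⁻¹ • x := by
  funext j
  refine Fin.cases ?_ (fun j => ?_) j
  · rw [Fin.cons_zero, Pi.smul_apply, smul_eq_mul, inv_mul_cancel₀ h]
  · rw [Fin.cons_succ, Pi.smul_apply, smul_eq_mul, div_eq_inv_mul]

theorem dehom_scale {Ω : Type} [Field Ω] (τ : K →+* Ω) {A : MvPolynomial (Fin (n + 1)) (𝓞 K)}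
    (hA : ∃ e, A.IsHomogeneous e) (x : Fin (n + 1) → Ω) (h : x 0 ≠ 0) :
    eval₂ (τ.comp (algebraMap (𝓞 K) K)) (fun j : Fin n => x j.succ / x 0) (dehom A) = 0 ↔
      eval₂ (τ.comp (algebraMap (𝓞 K) K)) x A = 0 := by
  obtain ⟨e, he⟩ := hA
  rw [dehom_eval, cons_scale x h, zb_scale τ he, mul_eq_zero]
  constructor
  · rintro (h1 | h1)
    · exact absurd h1 (pow_ne_zero _ (inv_ne_zero h))
    · exact h1
  · exact Or.inr

variable {F : ι → MvPolynomial (Fin (n + 1)) (𝓞 K)} {G : κ → MvPolynomial (Fin (n + 1)) (𝓞 K)}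

theorem curves_dehom (σ : K →+* ℂ) (hF : ∀ i, ∃ e, (F i).IsHomogeneous e)
    (hG : ∀ i, ∃ e, (G i).IsHomogeneous e) :
    CurvesIn σ F (coord (𝓞 K) {0}) G ↔ AffCurvesIn σ (fun i => dehom (F i)) fun i =>
      dehom (G i) := by
  constructor
  · rintro h f hf hfF ⟨z₀, w₀, hne⟩ z k
    rw [dehom_eval]
    refine h (fun z => (Fin.cons 1 (f z) : Fin (n + 1) → ℂ)) ?_ ?_ ?_ ?_ ?_ z k
    · rw [differentiable_pi] at hf ⊢
      intro j
      refine Fin.cases ?_ (fun j => ?_) j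
      · simp only [Fin.cons_zero]
        exact differentiable_const _
      · simp only [Fin.cons_succ]
        exact hf j
    · intro z h0
      have h1 := congrFun h0 0
      simp at h1
    · intro z i
      rw [← dehom_eval]
      exact hfF z i
    · intro z
      refine ⟨⟨0, rfl⟩, ?_⟩
      unfold coord
      rw [eval₂_X, Fin.cons_zero]
      exact one_ne_zero
    · refine ⟨w₀, z₀, fun b hb => hne (funext fun j => ?_)⟩
      have h0 := congrFun hb 0
      simp only [Fin.cons_zero, Pi.smul_apply, smul_eq_mul, mul_one] at h0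
      have h1 := congrFun hb j.succ
      simp only [Fin.cons_succ, Pi.smul_apply, smul_eq_mul, ← h0, one_mul] at h1
      exact h1
  · rintro h f hf hf0 hfF hfT ⟨z₀, w₀, hnc⟩ z l
    have h0 : ∀ z, f z 0 ≠ 0 := by
      intro z
      obtain ⟨⟨i, hi⟩, h1⟩ := hfT z
      rw [Set.mem_singleton_iff] at hi
      unfold coord at h1
      rw [eval₂_X] at h1
      simp only [hi] at h1
      exact h1
    rw [← dehom_scale σ (hG l) (f z) (h0 z)]
    refine h (fun z (j : Fin n) => f z j.succ / f z 0) ?_ ?_ ?_ z l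
    · rw [differentiable_pi] at hf ⊢
      intro j
      exact (hf j.succ).fun_div (hf 0) h0
    · intro z i
      rw [dehom_scale σ (hF i) (f z) (h0 z)]
      exact hfF z i
    · refine ⟨z₀, w₀, fun h1 => hnc (f w₀ 0 / f z₀ 0) (funext fun j => ?_)⟩
      have h2 := h0 z₀
      have h3 := h0 w₀
      refine Fin.cases ?_ (fun j => ?_) j
      · rw [Pi.smul_apply, smul_eq_mul, div_mul_cancel₀ _ h2]
      · have h4 : f z₀ j.succ / f z₀ 0 = f w₀ j.succ / f w₀ 0 := congrFun h1 j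
        rw [Pi.smul_apply, smul_eq_mul]
        field_simp at h4 ⊢
        linear_combination -h4

/-- the affine coordinates of a point -/
theorem points_dehom [NumberField K] (hF : ∀ i, ∃ e, (F i).IsHomogeneous e)
    (hG : ∀ i, ∃ e, (G i).IsHomogeneous e) :
    PointsIn F (coord (𝓞 K) {0}) G ↔ AffPointsIn (fun i => dehom (F i)) fun i =>
      dehom (G i) := by
  have hne : ∀ (L : Type) [Field L] (u : Fin n → L), (Fin.cons 1 u : Fin (n + 1) → L) ≠ 0 := by
    intro L _ u h0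
    have h1 := congrFun h0 0
    simp at h1
  constructor
  · intro h L _ _ _ S hS
    refine Set.Finite.of_finite_image (f := fun u : Fin n → L =>
      Projectivization.mk L (Fin.cons 1 u : Fin (n + 1) → L) (hne L u)) ((h L S hS).subset ?_) ?_
    · rintro _ ⟨u, ⟨⟨hu1, hu2⟩, hu3⟩, rfl⟩
      obtain ⟨a, ha⟩ := Projectivization.exists_smul_eq_mk_rep L (Fin.cons 1 u : Fin (n + 1) → L)
        (hne L u)
      have ha' : (Projectivization.mk L (Fin.cons 1 u : Fin (n + 1) → L) (hne L u)).rep =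
        (a : L) • (Fin.cons 1 u : Fin (n + 1) → L) := ha.symm
      have ha0 : (a : L) ≠ 0 := a.ne_zero
      refine ⟨⟨fun i => ?_, ⟨⟨0, rfl⟩, ?_⟩, fun w hw => ?_⟩, fun hq => hu3 ⟨hu1, fun k => ?_⟩⟩
      · obtain ⟨e, he⟩ := hF i
        have h1 := hu2 i
        rw [dehom_eval] at h1
        rw [ha', zb_scale (algebraMap K L) he, h1, mul_zero]
      · unfold coord
        rw [eval₂_X, ha', Pi.smul_apply, smul_eq_mul]
        simp only [Fin.cons_zero, mul_one]
        exact ha0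
      · refine ⟨(a : L)⁻¹, fun j => ?_, ⟨0, ?_⟩, ⟨0, rfl⟩, ?_⟩
        · rw [ha', Pi.smul_apply, smul_eq_mul, ← mul_assoc, inv_mul_cancel₀ ha0, one_mul]
          refine Fin.cases ?_ (fun j => ?_) j
          · rw [Fin.cons_zero, map_one]
          · rw [Fin.cons_succ]
            exact hu1 j w hw
        · rw [ha', Pi.smul_apply, smul_eq_mul, ← mul_assoc, inv_mul_cancel₀ ha0, one_mul,
            Fin.cons_zero, map_one]
        · unfold coord
          rw [eval₂_X, ha', Pi.smul_apply, smul_eq_mul, ← mul_assoc, inv_mul_cancel₀ ha0, one_mul]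
          simp only [Fin.cons_zero, map_one]
      · obtain ⟨e, he⟩ := hG k
        have h1 := hq k
        rw [ha', zb_scale (algebraMap K L) he] at h1
        rw [dehom_eval]
        exact (mul_eq_zero.1 h1).resolve_left (pow_ne_zero _ ha0)
    · intro u _ u' _ huu
      simp only at huu
      rw [Projectivization.mk_eq_mk_iff'] at huu
      obtain ⟨b, hb⟩ := huu
      funext j
      have h0 := congrFun hb 0
      simp only [Fin.cons_zero, Pi.smul_apply, smul_eq_mul, mul_one] at h0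
      have h1 := congrFun hb j.succ
      simp only [Fin.cons_succ, Pi.smul_apply, smul_eq_mul, h0, one_mul] at h1
      exact h1.symm
  · intro h L _ _ _ S hS
    refine ((h L S hS).image (fun u : Fin n → L =>
      Projectivization.mk L (Fin.cons 1 u : Fin (n + 1) → L) (hne L u))).subset ?_
    rintro P ⟨⟨hPF, ⟨⟨i, hi⟩, hPT⟩, hPR⟩, hPG⟩
    have h0 : P.rep 0 ≠ 0 := by
      rw [Set.mem_singleton_iff] at hi
      unfold coord at hPT
      rw [eval₂_X] at hPT
      simp only [hi] at hPT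
      exact hPT
    refine ⟨fun j => P.rep j.succ / P.rep 0, ⟨⟨fun j w hw => ?_, fun i => ?_⟩, fun hq =>
      hPG fun l => ?_⟩, ?_⟩
    · obtain ⟨b, hb1, -, ⟨⟨i', hi'⟩, hb2⟩⟩ := hPR w hw
      rw [Set.mem_singleton_iff] at hi'
      unfold coord at hb2
      rw [eval₂_X] at hb2
      simp only [hi'] at hb2
      have hb0 : b ≠ 0 := by
        rintro rfl
        rw [zero_mul, map_zero] at hb2
        exact zero_ne_one hb2
      have e1 : P.rep j.succ / P.rep 0 = b * P.rep j.succ / (b * P.rep 0) := by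
        rw [mul_div_mul_left _ _ hb0]
      change w.valuation L (P.rep j.succ / P.rep 0) ≤ 1
      rw [e1, map_div₀, hb2, div_one]
      exact hb1 _
    · exact (dehom_scale (algebraMap K L) (hF i) P.rep h0).2 (hPF i)
    · exact (dehom_scale (algebraMap K L) (hG l) P.rep h0).1 (hq.2 l)
    · simp only
      rw [← P.mk_rep, Projectivization.mk_eq_mk_iff']
      refine ⟨(P.rep 0)⁻¹, ?_⟩
      rw [← cons_scale P.rep h0]
      simp

/-- change of the equations -/
theorem AffCurvesIn.congr {ι' : Type} {n : ℕ} (σ : K →+* ℂ) {F : ι → MvPolynomial (Fin n) (𝓞 K)}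
    {F' : ι' → MvPolynomial (Fin n) (𝓞 K)} {G : κ → MvPolynomial (Fin n) (𝓞 K)}
    {G' : κ' → MvPolynomial (Fin n) (𝓞 K)}
    (hF : ∀ (Ω : Type) [Field Ω] (τ : K →+* Ω) (x : Fin n → Ω),
      (∀ i, eval₂ (τ.comp (algebraMap (𝓞 K) K)) x (F i) = 0) ↔
        ∀ i, eval₂ (τ.comp (algebraMap (𝓞 K) K)) x (F' i) = 0)
    (hG : ∀ (Ω : Type) [Field Ω] (τ : K →+* Ω) (x : Fin n → Ω),
      (∀ i, eval₂ (τ.comp (algebraMap (𝓞 K) K)) x (G i) = 0) ↔
        ∀ i, eval₂ (τ.comp (algebraMap (𝓞 K) K)) x (G' i) = 0) :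
    AffCurvesIn σ F G ↔ AffCurvesIn σ F' G' := by
  constructor
  · intro h f hf hfF hne z
    exact (hG ℂ σ _).1 (h f hf (fun z => (hF ℂ σ _).2 (hfF z)) hne z)
  · intro h f hf hfF hne z
    exact (hG ℂ σ _).2 (h f hf (fun z => (hF ℂ σ _).1 (hfF z)) hne z)

theorem AffPointsIn.congr {ι' : Type} {n : ℕ} {F : ι → MvPolynomial (Fin n) (𝓞 K)}
    {F' : ι' → MvPolynomial (Fin n) (𝓞 K)} {G : κ → MvPolynomial (Fin n) (𝓞 K)}
    {G' : κ' → MvPolynomial (Fin n) (𝓞 K)}
    (hF : ∀ (Ω : Type) [Field Ω] (τ : K →+* Ω) (x : Fin n → Ω),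
      (∀ i, eval₂ (τ.comp (algebraMap (𝓞 K) K)) x (F i) = 0) ↔
        ∀ i, eval₂ (τ.comp (algebraMap (𝓞 K) K)) x (F' i) = 0)
    (hG : ∀ (Ω : Type) [Field Ω] (τ : K →+* Ω) (x : Fin n → Ω),
      (∀ i, eval₂ (τ.comp (algebraMap (𝓞 K) K)) x (G i) = 0) ↔
        ∀ i, eval₂ (τ.comp (algebraMap (𝓞 K) K)) x (G' i) = 0) :
    AffPointsIn F G ↔ AffPointsIn F' G' := by
  have e1 : ∀ (L : Type) [Field L] [NumberField L] [Algebra K L]
      (S : Set (HeightOneSpectrum (𝓞 L))), intPoints F L S = intPoints F' L S := by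
    intro L _ _ _ S
    ext x
    exact and_congr_right fun _ => hF L (algebraMap K L) x
  have e2 : ∀ (L : Type) [Field L] [NumberField L] [Algebra K L]
      (S : Set (HeightOneSpectrum (𝓞 L))), intPoints G L S = intPoints G' L S := by
    intro L _ _ _ S
    ext x
    exact and_congr_right fun _ => hG L (algebraMap K L) x
  constructor
  · intro h L _ _ _ S hS
    rw [← e1, ← e2]
    exact h L S hS
  · intro h L _ _ _ S hS
    rw [e1, e2]
    exact h L S hS

end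

section hom

/-- the homogenization -/
noncomputable def homR {R : Type} [CommRing R] {n : ℕ} (d : ℕ) (p : MvPolynomial (Fin n) R) :
    MvPolynomial (Fin (n + 1)) R :=
  ∑ s ∈ p.support, C (coeff s p) * (X 0 ^ (d - ∑ j, s j) * ∏ j : Fin n, X j.succ ^ s j)

theorem homR_hom {R : Type} [CommRing R] {n : ℕ} (p : MvPolynomial (Fin n) R) :
    (homR p.totalDegree p).IsHomogeneous p.totalDegree := by
  refine IsHomogeneous.sum _ _ _ fun s hs => ?_
  have h1 : (X 0 ^ (p.totalDegree - ∑ j, s j) : MvPolynomial (Fin (n + 1)) R).IsHomogeneous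
      (1 * (p.totalDegree - ∑ j, s j)) := (isHomogeneous_X R 0).pow _
  have h2 : (∏ j : Fin n, X j.succ ^ s j : MvPolynomial (Fin (n + 1)) R).IsHomogeneous
      (∑ j : Fin n, 1 * s j) := IsHomogeneous.prod _ _ _ fun j _ => (isHomogeneous_X R j.succ).pow _
  have h3 := (isHomogeneous_C (Fin (n + 1)) (coeff s p)).mul (h1.mul h2)
  have h5 := le_totalDegree hs
  rw [Finsupp.sum_fintype _ _ (fun _ => rfl)] at h5
  have h4 : 0 + (1 * (p.totalDegree - ∑ j, s j) + ∑ j : Fin n, 1 * s j) = p.totalDegree := by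
    simp only [one_mul, zero_add]
    omega
  rwa [h4] at h3

theorem dehom_homR {R : Type} [CommRing R] {n : ℕ} (d : ℕ) (p : MvPolynomial (Fin n) R) :
    dehom (homR d p) = p := by
  unfold dehom homR
  rw [map_sum]
  conv_rhs => rw [p.as_sum]
  refine Finset.sum_congr rfl fun s _ => ?_
  rw [map_mul, map_mul, map_pow, map_prod, aeval_X, Fin.cons_zero, one_pow, one_mul]
  simp only [map_pow, aeval_X, Fin.cons_succ]
  rw [monomial_eq, Finsupp.prod_fintype _ _ (fun _ => pow_zero _), ← algebraMap_eq,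
    AlgHom.commutes]
  rfl

/-- the affine diagonal polynomial -/
noncomputable def adform {R : Type} [CommRing R] {N : ℕ} (m : ℕ) (c : Fin (N + 1) → R) :
    MvPolynomial (Fin N) R := C (c 0) + ∑ j : Fin N, C (c j.succ) * X j ^ m

theorem dehom_dform {R : Type} [CommRing R] {N : ℕ} (m : ℕ) (c : Fin (N + 1) → R) :
    dehom (dform m c) = adform m c := by
  unfold dehom dform adform
  rw [map_sum, Fin.sum_univ_succ]
  simp only [map_mul, map_pow, aeval_X, Fin.cons_zero, one_pow, mul_one, Fin.cons_succ,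
    ← algebraMap_eq, AlgHom.commutes]

end hom

section main

variable {K : Type} [Field K] [NumberField K] (σ : K →+* ℂ) (D : Set (𝓞 K))

theorem coord_dehom {N : ℕ} {J : Set (Fin (N + 1))} (h0 : 0 ∉ J) (Ω : Type) [Field Ω]
    (τ : K →+* Ω) (x : Fin N → Ω) :
    (∀ i, eval₂ (τ.comp (algebraMap (𝓞 K) K)) x (dehom (coord (𝓞 K) J i)) = 0) ↔
      ∀ i : {j : Fin N | j.succ ∈ J}, eval₂ (τ.comp (algebraMap (𝓞 K) K)) x
        (X (i : Fin N) : MvPolynomial (Fin N) (𝓞 K)) = 0 := by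
  simp only [dehom_eval]
  unfold coord
  simp only [eval₂_X]
  constructor
  · rintro h ⟨j, hj⟩
    have := h ⟨j.succ, hj⟩
    simpa using this
  · rintro h ⟨j, hj⟩
    obtain ⟨j', rfl⟩ : ∃ j', j = Fin.succ j' := Fin.exists_succ_eq.2 (by
      rintro rfl
      exact h0 hj) |>.imp fun _ h => h.symm
    have := h ⟨j', hj⟩
    simpa using this

theorem curves_coord {m N k : ℕ} {c : Fin k → Fin (N + 1) → 𝓞 K} {J : Set (Fin (N + 1))}
    (hJ : 0 ∉ J) : CurvesIn σ (fun i => dform m (c i)) (coord (𝓞 K) {0}) (coord (𝓞 K) J) ↔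
      AffCurvesIn σ (fun i => adform m (c i))
        (fun j : {j : Fin N | j.succ ∈ J} => (X (j : Fin N) : MvPolynomial (Fin N) (𝓞 K))) := by
  have hdf : ∀ i : Fin k, ∃ e, (dform m (c i)).IsHomogeneous e := fun i => ⟨m, dform_hom _⟩
  have hco : ∀ j : J, ∃ e, (coord (𝓞 K) J j).IsHomogeneous e := fun j => ⟨1, isHomogeneous_X _ _⟩
  rw [curves_dehom σ hdf hco]
  refine AffCurvesIn.congr σ (fun Ω _ τ x => ?_) (fun Ω _ τ x => coord_dehom hJ Ω τ x)
  simp only [dehom_dform]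

theorem points_coord {m N k : ℕ} {c : Fin k → Fin (N + 1) → 𝓞 K} {J : Set (Fin (N + 1))}
    (hJ : 0 ∉ J) : PointsIn (fun i => dform m (c i)) (coord (𝓞 K) {0}) (coord (𝓞 K) J) ↔
      AffPointsIn (fun i => adform m (c i))
        (fun j : {j : Fin N | j.succ ∈ J} => (X (j : Fin N) : MvPolynomial (Fin N) (𝓞 K))) := by
  have hdf : ∀ i : Fin k, ∃ e, (dform m (c i)).IsHomogeneous e := fun i => ⟨m, dform_hom _⟩
  have hco : ∀ j : J, ∃ e, (coord (𝓞 K) J j).IsHomogeneous e := fun j => ⟨1, isHomogeneous_X _ _⟩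
  rw [points_dehom hdf hco]
  refine AffPointsIn.congr (fun Ω _ τ x => ?_) (fun Ω _ τ x => coord_dehom hJ Ω τ x)
  simp only [dehom_dform]

/-- the embedding of an affine scheme -/
theorem exists_emb_aff (h1D : (1 : 𝓞 K) ∈ D)
    (hneg : ∀ x ∈ D, -x ∈ D) (hD : Submodule.span ℚ (algebraMap (𝓞 K) K '' D) = ⊤) {m : ℕ}
    (hm : 2 ≤ m) {n : ℕ} {ι γ : Type} [Finite ι] (F : ι → MvPolynomial (Fin n) (𝓞 K))
    (G : γ → MvPolynomial (Fin n) (𝓞 K)) :
    ∃ (F' : ι → MvPolynomial (Fin (n + 1)) (𝓞 K)) (G' : γ → MvPolynomial (Fin (n + 1)) (𝓞 K))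
      (N k : ℕ) (Φ : ∀ (Ω : Type) [Field Ω], (K →+* Ω) → (Fin (n + 1) → Ω) → Fin (N + 1) → Ω)
      (c : Fin k → Fin (N + 1) → 𝓞 K) (J : Set (Fin (N + 1))),
      (∀ i, ∃ e, (F' i).IsHomogeneous e) ∧ (∀ i, ∃ e, (G' i).IsHomogeneous e) ∧
      (∀ i, dehom (F' i) = F i) ∧ (∀ i, dehom (G' i) = G i) ∧ 0 ∉ J ∧
      (∀ i j, c i j = 0 ∨ c i j ∈ D) ∧ Emb m F' (coord (𝓞 K) {0}) G' Φ c {0} J ∧
      ∃ (e : ℕ) (P : Fin (N + 1) → MvPolynomial (Fin (n + 1)) (𝓞 K)), 1 ≤ e ∧
        (∀ j, (P j).IsHomogeneous e) ∧ P 0 = X 0 ^ e ∧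
        (∀ i : Fin n, ∃ j : Fin N, P j.succ = X 0 ^ (e - 1) * X i.succ) ∧
        ∀ (Ω : Type) [Field Ω] (τ : K →+* Ω) (x : Fin (n + 1) → Ω) (j : Fin (N + 1)),
          Φ Ω τ x j = eval₂ (τ.comp (algebraMap (𝓞 K) K)) x (P j) := by
  have hF : ∀ i, ∃ e, (homR (F i).totalDegree (F i)).IsHomogeneous e := fun i => ⟨_, homR_hom _⟩
  have hG : ∀ i, ∃ e, (homR (G i).totalDegree (G i)).IsHomogeneous e := fun i => ⟨_, homR_hom _⟩
  obtain ⟨N, k, Φ, c, J, hJ, hc, hE, hP⟩ := exists_emb_affine D h1D hneg hD hm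
    (fun i => homR (F i).totalDegree (F i)) (fun i => homR (G i).totalDegree (G i)) hF hG
  refine ⟨_, _, N, k, Φ, c, J, hF, hG, fun i => dehom_homR _ _, fun i => dehom_homR _ _, hJ, hc,
    hE.congr ?_ ?_ ?_, hP⟩
  · intro Ω _ τ x hx
    unfold coord
    simp
  · intro L _ _ _ x w
    unfold RedNotIn coord
    simp
  · intro Ω _ τ x hx
    exact Iff.rfl

/-- **The embedding of an affine scheme in an affine intersection of diagonal hypersurfaces.** -/
theorem geo_aff (h1D : (1 : 𝓞 K) ∈ D)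
    (hneg : ∀ x ∈ D, -x ∈ D) (hD : Submodule.span ℚ (algebraMap (𝓞 K) K '' D) = ⊤) {m : ℕ}
    (hm : 2 ≤ m) {n : ℕ} {ι γ : Type} [Finite ι] (F : ι → MvPolynomial (Fin n) (𝓞 K))
    (G : γ → MvPolynomial (Fin n) (𝓞 K)) :
    ∃ (N k : ℕ) (c : Fin k → Fin (N + 1) → 𝓞 K) (J : Set (Fin N))
      (φ : Fin N → MvPolynomial (Fin n) (𝓞 K)), (∀ i j, c i j = 0 ∨ c i j ∈ D) ∧
      (∀ i, ∃ j, φ j = X i) ∧
      (∀ (Ω : Type) [Field Ω] (τ : K →+* Ω) (x : Fin n → Ω),
        ((∀ i, eval₂ (τ.comp (algebraMap (𝓞 K) K)) x (F i) = 0) ↔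
          ∀ i, eval₂ (τ.comp (algebraMap (𝓞 K) K))
            (fun j => eval₂ (τ.comp (algebraMap (𝓞 K) K)) x (φ j)) (adform m (c i)) = 0) ∧
        ((∀ i, eval₂ (τ.comp (algebraMap (𝓞 K) K)) x (G i) = 0) ↔
          ∀ j ∈ J, eval₂ (τ.comp (algebraMap (𝓞 K) K)) x (φ j) = 0)) ∧
      ∀ (σ : K →+* ℂ) (f : ℂ → Fin N → ℂ), Differentiable ℂ f →
        (∀ z i, eval₂ (σ.comp (algebraMap (𝓞 K) K)) (f z) (adform m (c i)) = 0) →
        (∃ z w, f z ≠ f w) → ∃ (ζ : Fin N → ℂ) (x : ℂ → Fin n → ℂ), (∀ j, ζ j ^ m = 1) ∧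
          Differentiable ℂ x ∧ (∀ z i, eval₂ (σ.comp (algebraMap (𝓞 K) K)) (x z) (F i) = 0) ∧
          ∀ z j, f z j = ζ j * eval₂ (σ.comp (algebraMap (𝓞 K) K)) (x z) (φ j) := by
  obtain ⟨F', G', N, k, Φ, c, J, hF, hG, hF', hG', hJ, hc, hE, e, P, he, hPh, hP0, hP1, hΦ⟩ :=
    exists_emb_aff D h1D hneg hD hm F G
  have hne : ∀ (L : Type) [Field L] (u : Fin n → L), (Fin.cons 1 u : Fin (n + 1) → L) ≠ 0 := by
    intro L _ u h0
    have h1 := congrFun h0 0
    simp at h1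
  have key : ∀ (Ω : Type) [Field Ω] (τ : K →+* Ω) (u : Fin n → Ω),
      Φ Ω τ (Fin.cons 1 u) = Fin.cons 1 fun j : Fin N =>
        eval₂ (τ.comp (algebraMap (𝓞 K) K)) u (dehom (P j.succ)) := by
    intro Ω _ τ u
    funext j
    rw [hΦ]
    refine Fin.cases ?_ (fun j => ?_) j
    · rw [hP0, eval₂_pow, eval₂_X, Fin.cons_zero, Fin.cons_zero, one_pow]
    · rw [Fin.cons_succ, dehom_eval]
  refine ⟨N, k, c, {j | j.succ ∈ J}, fun j => dehom (P j.succ), hc, ?_, ?_, ?_⟩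
  · intro i
    obtain ⟨j, hj⟩ := hP1 i
    refine ⟨j, ?_⟩
    change dehom (P j.succ) = X i
    rw [hj]
    unfold dehom
    rw [map_mul, map_pow, aeval_X, aeval_X, Fin.cons_zero, one_pow, one_mul, Fin.cons_succ]
  · intro Ω _ τ x
    constructor
    · have h1 := hE.pts Ω τ (Fin.cons 1 x) (hne Ω x)
      rw [key] at h1
      simp only [← dehom_eval, hF', dehom_dform] at h1
      exact h1
    · have h1 := hE.onG Ω τ (Fin.cons 1 x) (hne Ω x)
      rw [key] at h1
      simp only [← dehom_eval, hG'] at h1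
      rw [← h1]
      constructor
      · intro h j hj
        have := h j.succ hj
        rwa [Fin.cons_succ] at this
      · intro h j hj
        obtain ⟨j', rfl⟩ : ∃ j', j = Fin.succ j' := Fin.exists_succ_eq.2 (by
          rintro rfl
          exact hJ hj) |>.imp fun _ h => h.symm
        rw [Fin.cons_succ]
        exact h j' hj
  · rintro σ f hf hfX ⟨z₀, w₀, hne'⟩
    obtain ⟨ζ, x, hζ, hxd, hx0, hxF, hfx⟩ := hE.curves σ
      (fun z => (Fin.cons 1 (f z) : Fin (N + 1) → ℂ)) (by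
        rw [differentiable_pi] at hf ⊢
        intro j
        refine Fin.cases ?_ (fun j => ?_) j
        · simp only [Fin.cons_zero]
          exact differentiable_const _
        · simp only [Fin.cons_succ]
          exact hf j) (fun z h0 => by
        have h1 := congrFun h0 0
        simp at h1) (fun z i => by
        rw [← dehom_eval, dehom_dform]
        exact hfX z i) ⟨w₀, z₀, fun b hb => hne' (funext fun j => by
        have h0 := congrFun hb 0
        simp only [Fin.cons_zero, Pi.smul_apply, smul_eq_mul, mul_one] at h0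
        have h1 := congrFun hb j.succ
        simp only [Fin.cons_succ, Pi.smul_apply, smul_eq_mul, ← h0, one_mul] at h1
        exact h1)⟩
    have h00 : ∀ z, ζ 0 * x z 0 ^ e = 1 := by
      intro z
      have h1 := hfx z 0
      rw [hΦ, hP0, eval₂_pow, eval₂_X, Fin.cons_zero] at h1
      exact h1.symm
    have hxz : ∀ z, x z 0 ≠ 0 := by
      intro z h0
      have h1 := h00 z
      rw [h0, zero_pow (by omega), mul_zero] at h1
      exact zero_ne_one h1
    refine ⟨fun j => ζ j.succ / ζ 0, fun z j => x z j.succ / x z 0, fun j => ?_, ?_, ?_, ?_⟩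
    · rw [div_pow, hζ, hζ, div_one]
    · rw [differentiable_pi] at hxd ⊢
      intro j
      exact (hxd j.succ).fun_div (hxd 0) hxz
    · intro z i
      have h1 := (dehom_scale σ (hF i) (x z) (hxz z)).2 (hxF z i)
      rw [hF'] at h1
      exact h1
    · intro z j
      have h1 := hfx z j.succ
      rw [Fin.cons_succ, hΦ] at h1
      rw [h1, dehom_eval, cons_scale (x z) (hxz z), zb_scale σ (hPh _)]
      have h2 : ζ 0 ≠ 0 := by
        intro h0
        have := h00 z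
        rw [h0, zero_mul] at this
        exact zero_ne_one this
      have h3 := h00 z
      have h4 : (x z 0)⁻¹ ^ e = ζ 0 := by
        rw [inv_pow]
        exact inv_eq_of_mul_eq_one_left h3
      rw [h4]
      field_simp

/-- **From curves to points, affine schemes.** -/
theorem implication_aff (h1D : (1 : 𝓞 K) ∈ D)
    (hneg : ∀ x ∈ D, -x ∈ D) (hD : Submodule.span ℚ (algebraMap (𝓞 K) K '' D) = ⊤) {m : ℕ}
    (hm : 2 ≤ m)
    (H : ∀ (N k : ℕ) (c : Fin k → Fin (N + 1) → 𝓞 K), (∀ i j, c i j = 0 ∨ c i j ∈ D) →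
      ∀ J : Set (Fin N), AffCurvesIn σ (fun i => adform m (c i))
        (fun j : J => (X (j : Fin N) : MvPolynomial (Fin N) (𝓞 K))) →
        AffPointsIn (fun i => adform m (c i))
          (fun j : J => (X (j : Fin N) : MvPolynomial (Fin N) (𝓞 K))))
    {n : ℕ} {ι γ : Type} [Finite ι] (F : ι → MvPolynomial (Fin n) (𝓞 K))
    (G : γ → MvPolynomial (Fin n) (𝓞 K)) (h : AffCurvesIn σ F G) : AffPointsIn F G := by
  obtain ⟨F', G', N, k, Φ, c, J, hF, hG, hF', hG', hJ, hc, hE, -⟩ :=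
    exists_emb_aff D h1D hneg hD hm F G
  obtain rfl : (fun i => dehom (F' i)) = F := funext hF'
  obtain rfl : (fun i => dehom (G' i)) = G := funext hG'
  rw [← points_dehom hF hG]
  rw [← curves_dehom σ hF hG] at h
  have h2 := (hE.curvesIn hm σ).1 h
  rw [curves_coord σ hJ] at h2
  have h3 := H N k c hc _ h2
  rw [← points_coord hJ] at h3
  exact hE.points_of hm h3

/-- the points outside of the copies -/
theorem points_copies (h1D : (1 : 𝓞 K) ∈ D)
    (hneg : ∀ x ∈ D, -x ∈ D) (hD : Submodule.span ℚ (algebraMap (𝓞 K) K '' D) = ⊤) {m : ℕ}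
    (hm : 2 ≤ m)
    (H : ∀ (N k : ℕ) (c : Fin k → Fin (N + 1) → 𝓞 K), (∀ i j, c i j = 0 ∨ c i j ∈ D) →
      ∀ J : Set (Fin N), AffineBLV σ (fun i => adform m (c i))
        (fun j : J => (X (j : Fin N) : MvPolynomial (Fin N) (𝓞 K))))
    {N k : ℕ} {c : Fin k → Fin (N + 1) → 𝓞 K} {κ₁ : Type}
    {Z : κ₁ → MvPolynomial (Fin (N + 1)) (𝓞 K)} (hZh : ∀ s, ∃ d, (Z s).IsHomogeneous d)
    (h : CurvesIn σ (fun i => dform m (c i)) (coord (𝓞 K) {0}) Z) :
    PointsIn (fun i => dform m (c i)) (coord (𝓞 K) {0}) Z := by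
  have hdf : ∀ i : Fin k, ∃ e, (dform m (c i)).IsHomogeneous e := fun i => ⟨m, dform_hom _⟩
  rw [points_dehom hdf hZh]
  rw [curves_dehom σ hdf hZh] at h
  exact implication_aff σ D h1D hneg hD hm (fun N k c hc J => (H N k c hc J).1) _ _ h

/-- **From points to curves, affine schemes.** -/
theorem converse_aff (h1D : (1 : 𝓞 K) ∈ D)
    (hneg : ∀ x ∈ D, -x ∈ D) (hD : Submodule.span ℚ (algebraMap (𝓞 K) K '' D) = ⊤) {m : ℕ}
    (hm : 2 ≤ m)
    (H : ∀ (N k : ℕ) (c : Fin k → Fin (N + 1) → 𝓞 K), (∀ i j, c i j = 0 ∨ c i j ∈ D) →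
      ∀ J : Set (Fin N), AffineBLV σ (fun i => adform m (c i))
        (fun j : J => (X (j : Fin N) : MvPolynomial (Fin N) (𝓞 K))))
    {n : ℕ} {ι γ : Type} [Finite ι] (F : ι → MvPolynomial (Fin n) (𝓞 K))
    (G : γ → MvPolynomial (Fin n) (𝓞 K)) (h : AffPointsIn F G) : AffCurvesIn σ F G := by
  obtain ⟨F', G', N, k, Φ, c, J, hF, hG, hF', hG', hJ, hc, hE, -⟩ :=
    exists_emb_aff D h1D hneg hD hm F G
  obtain rfl : (fun i => dehom (F' i)) = F := funext hF'
  obtain rfl : (fun i => dehom (G' i)) = G := funext hG'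
  have hc1 : ∀ j : ({0} : Set (Fin (n + 1))), ∃ e, (coord (𝓞 K) {0} j).IsHomogeneous e :=
    fun j => ⟨1, isHomogeneous_X _ _⟩
  obtain ⟨κ₁, _, Z, hZh, hZa, hZb⟩ := hE.copies
  have h1 : PointsIn (fun i => dform m (c i)) (coord (𝓞 K) {0}) Z := by
    refine points_copies σ D h1D hneg hD hm H hZh ?_
    intro f hf hf0 hfX _ hnc z s
    obtain ⟨ζ, x, hζ, hxd, hx0, hxF, hfx⟩ := hE.curves σ f hf hf0 hfX hnc
    refine hZa ℂ σ (x z) (f z) 1 (hxF z) (fun j => ?_) s
    rw [hfx, mul_pow, hζ]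
  rw [← points_dehom hF hG] at h
  rw [← curves_dehom σ hF hG]
  have h3 := hE.points_to hm hF hc1 hG hZb h1 h
  rw [points_coord hJ] at h3
  have h4 := (H N k c hc _).2 h3
  exact (hE.curvesIn hm σ).2 ((curves_coord σ hJ).2 h4)

end main

end Pool.Agent.H441.DQ
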