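import Pool.Agent.H441.DQ.Geo
import Pool.Agent.H441.DF.Copy

/-!
Diagonal forms with coefficients in a small set; lists of linear forms.
-/

set_option autoImplicit false

namespace Pool.Agent.H441.DQ

open MvPolynomial
open Pool.Agent.N254.SQ hiding Extends lin
open Pool.Agent.H441.DF (sum_of getD_sum getD_mem mult)

section

variable {K : Type} [Field K] [CharZero K]

/-- a list of all vectors of natural numbers with entries at most `B` and of given vectors -/
theorem exists_list (M B : ℕ) {κ : Type} [Finite κ] (b : κ → Fin (M + 1) → K) :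
    ∃ (N : ℕ) (A : Fin (N + 1) → Fin (M + 1) → K), Box B A ∧ (∀ e, ∃ j, A j = b e) ∧
      ∀ j, (∃ c : Fin (M + 1) → ℕ, (∀ i, c i ≤ B) ∧ A j = fun l => (c l : K)) ∨
        ∃ e, A j = b e := by
  classical
  let S : Set (Fin (M + 1) → ℕ) := {c | ∀ i, c i ≤ B}
  have hS : S.Finite := Set.Finite.pi' (t := fun _ => Set.Iic B) (fun _ => Set.finite_Iic _)
  have := hS.fintype
  have := Fintype.ofFinite κ
  have hne : 0 < Fintype.card (S ⊕ κ) :=
    Fintype.card_pos_iff.2 ⟨Sum.inl ⟨0, fun i => Nat.zero_le _⟩⟩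
  obtain ⟨N, hN⟩ : ∃ N, Fintype.card (S ⊕ κ) = N + 1 := ⟨Fintype.card (S ⊕ κ) - 1, by omega⟩
  let e : Fin (N + 1) ≃ S ⊕ κ := (Fintype.equivFinOfCardEq hN).symm
  let g : S ⊕ κ → Fin (M + 1) → K := Sum.elim (fun c l => ((c : Fin (M + 1) → ℕ) l : K)) b
  refine ⟨N, fun j => g (e j), ?_, ?_, ?_⟩
  · intro c hc
    exact ⟨e.symm (Sum.inl ⟨c, hc⟩), by simp [g]⟩
  · intro t
    exact ⟨e.symm (Sum.inr t), by simp [g]⟩
  · intro j
    rcases h : e j with c | t
    · left
      refine ⟨c, c.2, ?_⟩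
      simp only [h, g, Sum.elim_inl]
    · right
      refine ⟨t, ?_⟩
      simp only [h, g, Sum.elim_inr]

/-- **Generators of the relations with small coefficients**, after a repetition of the vectors. -/
theorem rel_fg_small (D : Set K) (h1 : (1 : K) ∈ D) (hneg : ∀ x ∈ D, -x ∈ D) [Algebra ℚ K]
    (hD : Submodule.span ℚ D = ⊤) {M N₀ m : ℕ} (a₀ : Fin (N₀ + 1) → Fin (M + 1) → K) {ι : Type}
    (q : ι → MvPolynomial (Fin (M + 1)) K) :
    ∃ (N : ℕ) (p : Fin (N + 1) → Fin (N₀ + 1)), (∀ j₀, ∃ j j', j ≠ j' ∧ p j = j₀ ∧ p j' = j₀) ∧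
      ∃ (k : ℕ) (c : Fin k → Fin (N + 1) → K), (∀ i j, c i j = 0 ∨ c i j ∈ D) ∧
        Submodule.span K (Set.range c) = rel m (fun j => a₀ (p j)) q := by
  classical
  obtain ⟨k₀, c₀, hc₀⟩ := rel_fg (m := m) (A := a₀) q
  choose t ht using fun i j => sum_of D hneg hD (c₀ i j)
  -- a common multiple
  let T : Fin k₀ → ℕ := fun i => ∏ j, t i j
  have hT : ∀ i, 0 < T i := fun i => Finset.prod_pos fun j _ => (ht i j).1
  have hl : ∀ i j, ∃ l : List K, (∀ y ∈ l, y ∈ D) ∧ l.sum = (T i : K) * c₀ i j := by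
    intro i j
    obtain ⟨l, hl, hs⟩ := (ht i j).2
    obtain ⟨b, hb⟩ : t i j ∣ T i := Finset.dvd_prod_of_mem _ (Finset.mem_univ j)
    refine ⟨(List.replicate b l).flatten, ?_, ?_⟩
    · intro w hw
      simp only [List.mem_flatten, List.mem_replicate] at hw
      obtain ⟨l₁, ⟨-, rfl⟩, h⟩ := hw
      exact hl w h
    · rw [List.sum_flatten, List.map_replicate, List.sum_replicate, hs, nsmul_eq_mul, hb]
      push_cast
      ring
  choose l hlD hls using hl
  let s : ℕ := 2 + ∑ i, ∑ j, (l i j).length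
  have hs : ∀ i j, (l i j).length ≤ s := by
    intro i j
    have h2 : (l i j).length ≤ ∑ j, (l i j).length :=
      Finset.single_le_sum (f := fun j => (l i j).length) (fun _ _ => Nat.zero_le _)
        (Finset.mem_univ j)
    have h3 : ∑ j, (l i j).length ≤ ∑ i, ∑ j, (l i j).length :=
      Finset.single_le_sum (f := fun i => ∑ j, (l i j).length) (fun _ _ => Nat.zero_le _)
        (Finset.mem_univ i)
    omega
  obtain ⟨s', hs', hs'1⟩ : ∃ s', s = s' + 1 ∧ 1 ≤ s' :=
    ⟨1 + ∑ i, ∑ j, (l i j).length, by omega, by omega⟩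
  -- the new index set
  obtain ⟨N, hN⟩ : ∃ N, Fintype.card (Fin (N₀ + 1) × Fin (s' + 1)) = N + 1 := by
    refine ⟨(N₀ + 1) * (s' + 1) - 1, ?_⟩
    rw [Fintype.card_prod, Fintype.card_fin, Fintype.card_fin]
    have : 0 < (N₀ + 1) * (s' + 1) := Nat.mul_pos (Nat.succ_pos _) (Nat.succ_pos _)
    omega
  let ε : Fin (N + 1) ≃ Fin (N₀ + 1) × Fin (s' + 1) := (Fintype.equivFinOfCardEq hN).symm
  refine ⟨N, fun j => (ε j).1, fun j => ⟨ε.symm (j, 0), ε.symm (j, ⟨1, by omega⟩), fun h => ?_,
    by simp, by simp⟩, ?_⟩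
  · have h1 := congrArg Prod.snd (ε.symm.injective h)
    have h2 := congrArg Fin.val h1
    simp at h2
  set a : Fin (N + 1) → Fin (M + 1) → K := fun j => a₀ (ε j).1 with ha
  -- the generators
  let g : Fin k₀ ⊕ (Fin (N + 1)) → Fin (N + 1) → K := Sum.elim
    (fun i j => (l i (ε j).1).getD (ε j).2 0)
    (fun j => Pi.single j 1 - Pi.single (ε.symm ((ε j).1, 0)) 1)
  -- push forward
  have hpush : ∀ c : Fin (N + 1) → K, comb m a c =
      comb m a₀ (fun j₀ => ∑ i : Fin (s' + 1), c (ε.symm (j₀, i))) := by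
    intro c
    rw [comb_apply, comb_apply]
    rw [← ε.symm.sum_comp, Fintype.sum_prod_type]
    refine Finset.sum_congr rfl fun j₀ _ => ?_
    rw [Finset.sum_smul]
    refine Finset.sum_congr rfl fun i _ => ?_
    simp only [ha, Equiv.apply_symm_apply]
  have hspan : Submodule.span K (Set.range g) = rel m a q := by
    apply le_antisymm
    · rw [Submodule.span_le]
      rintro _ ⟨(i | j), rfl⟩
      · change g (Sum.inl i) ∈ rel m a q
        rw [mem_rel, hpush]
        have e : (fun j₀ => ∑ i' : Fin (s' + 1), g (Sum.inl i) (ε.symm (j₀, i'))) =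
            (T i : K) • c₀ i := by
          funext j₀
          rw [Pi.smul_apply, smul_eq_mul, ← hls i j₀, ← getD_sum (l i j₀) (s' + 1) (by
            rw [← hs']
            exact hs i j₀)]
          refine Finset.sum_congr rfl fun i' _ => ?_
          simp only [g, Sum.elim_inl, Equiv.apply_symm_apply]
        rw [e, map_smul]
        exact Submodule.smul_mem _ _ (rel_hom hc₀ i)
      · change g (Sum.inr j) ∈ rel m a q
        rw [mem_rel]
        have e : comb m a (g (Sum.inr j)) = 0 := by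
          simp only [g, Sum.elim_inr]
          rw [map_sub, sub_eq_zero]
          have h2 : ∀ j, comb m a (Pi.single j 1) = linK (a j) ^ m := by
            intro j
            rw [comb_apply, Finset.sum_eq_single j]
            · rw [Pi.single_eq_same, one_smul]
            · intro i _ hij
              rw [Pi.single_eq_of_ne hij, zero_smul]
            · intro h
              exact absurd (Finset.mem_univ j) h
          rw [h2, h2]
          simp only [ha, Equiv.apply_symm_apply]
        rw [e]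
        exact Submodule.zero_mem _
    · intro c hc
      -- the fibre sums
      have h2 : (fun j₀ => ∑ i : Fin (s' + 1), c (ε.symm (j₀, i))) ∈
          Submodule.span K (Set.range c₀) := by
        rw [hc₀, mem_rel, ← hpush]
        exact hc
      rw [Submodule.mem_span_range_iff_exists_fun] at h2
      obtain ⟨lam, hlam⟩ := h2
      -- the difference with the combination of the first generators
      let c' : Fin (N + 1) → K := c - ∑ i, (lam i * (T i : K)⁻¹) • g (Sum.inl i)
      have hc' : ∀ j₀, ∑ i' : Fin (s' + 1), c' (ε.symm (j₀, i')) = 0 := by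
        intro j₀
        have h3 := congrFun hlam j₀
        simp only [Finset.sum_apply, Pi.smul_apply, smul_eq_mul] at h3
        simp only [c', Pi.sub_apply, Finset.sum_apply, Pi.smul_apply, smul_eq_mul,
          Finset.sum_sub_distrib]
        rw [← h3, Finset.sum_comm, sub_eq_zero]
        refine Finset.sum_congr rfl fun i _ => ?_
        rw [← Finset.mul_sum]
        have e : ∑ i' : Fin (s' + 1), g (Sum.inl i) (ε.symm (j₀, i')) = (T i : K) * c₀ i j₀ := by
          rw [← hls i j₀, ← getD_sum (l i j₀) (s' + 1) (by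
            rw [← hs']
            exact hs i j₀)]
          refine Finset.sum_congr rfl fun i' _ => ?_
          simp only [g, Sum.elim_inl, Equiv.apply_symm_apply]
        rw [e]
        have hT0 : (T i : K) ≠ 0 := by exact_mod_cast (hT i).ne'
        field_simp
      have hc'' : c' = ∑ j, c' j • g (Sum.inr j) := by
        funext j₁
        simp only [Finset.sum_apply, Pi.smul_apply, smul_eq_mul, g, Sum.elim_inr, Pi.sub_apply,
          mul_sub, Finset.sum_sub_distrib]
        have e1 : ∑ j, c' j * (Pi.single j 1 : Fin (N + 1) → K) j₁ = c' j₁ := by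
          rw [Finset.sum_eq_single j₁]
          · rw [Pi.single_eq_same, mul_one]
          · intro j _ hj
            rw [Pi.single_eq_of_ne hj.symm, mul_zero]
          · intro h
            exact absurd (Finset.mem_univ j₁) h
        have e2 : ∑ j, c' j * (Pi.single (ε.symm ((ε j).1, 0)) 1 : Fin (N + 1) → K) j₁ = 0 := by
          rw [← ε.symm.sum_comp, Fintype.sum_prod_type]
          refine Finset.sum_eq_zero fun j₀ _ => ?_
          simp only [Equiv.apply_symm_apply]
          rw [← Finset.sum_mul, hc', zero_mul]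
        rw [e1, e2, sub_zero]
      have e : c = c' + ∑ i, (lam i * (T i : K)⁻¹) • g (Sum.inl i) := by
        simp only [c']
        rw [sub_add_cancel]
      rw [e]
      refine Submodule.add_mem _ ?_ ?_
      · rw [hc'']
        exact Submodule.sum_mem _ fun j _ => Submodule.smul_mem _ _
          (Submodule.subset_span ⟨Sum.inr j, rfl⟩)
      · exact Submodule.sum_mem _ fun i _ => Submodule.smul_mem _ _
          (Submodule.subset_span ⟨Sum.inl i, rfl⟩)
  -- reindex
  let δ : Fin (k₀ + (N + 1)) ≃ Fin k₀ ⊕ Fin (N + 1) := finSumFinEquiv.symm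
  have hgD : ∀ u j, g u j = 0 ∨ g u j ∈ D := by
    rintro (i' | j') j
    · exact getD_mem D _ (hlD i' (ε j).1) _
    · change (Pi.single j' 1 - Pi.single (ε.symm ((ε j').1, 0)) 1 : Fin (N + 1) → K) j = 0 ∨
        (Pi.single j' 1 - Pi.single (ε.symm ((ε j').1, 0)) 1 : Fin (N + 1) → K) j ∈ D
      rw [Pi.sub_apply]
      by_cases h2 : j = j'
      · subst h2
        by_cases h3 : j = ε.symm ((ε j).1, 0)
        · left
          rw [← h3, sub_self]
        · right
          rw [Pi.single_eq_same, Pi.single_eq_of_ne h3, sub_zero]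
          exact h1
      · rw [Pi.single_eq_of_ne h2]
        by_cases h3 : j = ε.symm ((ε j').1, 0)
        · right
          rw [← h3, Pi.single_eq_same, zero_sub]
          exact hneg _ h1
        · left
          rw [Pi.single_eq_of_ne h3, sub_zero]
  refine ⟨k₀ + (N + 1), fun i => g (δ i), fun i j => hgD _ _, ?_⟩
  · rw [← hspan]
    congr 1
    ext x
    constructor
    · rintro ⟨i, rfl⟩
      exact ⟨δ i, rfl⟩
    · rintro ⟨i, rfl⟩
      exact ⟨δ.symm i, by simp⟩


/-- permutations of the linear forms -/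
theorem rel_perm {M N m : ℕ} (A : Fin (N + 1) → Fin (M + 1) → K) {ι : Type}
    (q : ι → MvPolynomial (Fin (M + 1)) K) (s : Fin (N + 1) ≃ Fin (N + 1)) {k : ℕ}
    {c : Fin k → Fin (N + 1) → K} (hc : Submodule.span K (Set.range c) = rel m A q) :
    Submodule.span K (Set.range fun i j => c i (s j)) = rel m (fun j => A (s j)) q := by
  have h1 : ∀ b : Fin (N + 1) → K, comb m (fun j => A (s j)) (fun j => b (s j)) = comb m A b := by
    intro b
    rw [comb_apply, comb_apply]
    exact s.sum_comp fun j => b j • linK (A j) ^ m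
  have h2 : (Set.range fun i j => c i (s j)) = LinearMap.funLeft K K s '' Set.range c := by
    ext x
    constructor
    · rintro ⟨i, rfl⟩
      exact ⟨c i, ⟨i, rfl⟩, rfl⟩
    · rintro ⟨_, ⟨i, rfl⟩, rfl⟩
      exact ⟨i, rfl⟩
  rw [h2, Submodule.span_image, hc]
  ext b
  rw [Submodule.mem_map]
  constructor
  · rintro ⟨b', hb', rfl⟩
    rw [mem_rel]
    change comb m (fun j => A (s j)) (fun j => b' (s j)) ∈ _
    rw [h1]
    exact hb'
  · intro hb
    refine ⟨fun j => b (s.symm j), ?_, ?_⟩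
    · rw [mem_rel] at hb ⊢
      rw [← h1]
      convert hb using 2
      funext j
      simp
    · funext j
      change b (s.symm (s j)) = b j
      simp

/-- a list with generators of the relations with small coefficients -/
theorem rel_small (D : Set K) (h1 : (1 : K) ∈ D) (hneg : ∀ x ∈ D, -x ∈ D) [Algebra ℚ K]
    (hD : Submodule.span ℚ D = ⊤) {M m : ℕ} (B : ℕ) {κ : Type} [Finite κ]
    (b : κ → Fin (M + 1) → K) {ι : Type} (q : ι → MvPolynomial (Fin (M + 1)) K) :
    ∃ (N : ℕ) (A : Fin (N + 1) → Fin (M + 1) → K) (k : ℕ) (c : Fin k → Fin (N + 1) → K),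
      Box B A ∧ (∀ e, ∃ j, j ≠ 0 ∧ A j = b e) ∧
      (∀ j, (∃ c : Fin (M + 1) → ℕ, (∀ i, c i ≤ B) ∧ A j = fun l => (c l : K)) ∨
        ∃ e, A j = b e) ∧
      (∀ i j, c i j = 0 ∨ c i j ∈ D) ∧ Submodule.span K (Set.range c) = rel m A q := by
  obtain ⟨N₀, A₀, h3, h4, h5⟩ := exists_list (K := K) M B b
  obtain ⟨N, p, hp, k, c, hcD, hc⟩ := rel_fg_small D h1 hneg hD (m := m) A₀ q
  refine ⟨N, fun j => A₀ (p j), k, c, ?_, ?_, fun j => h5 (p j), hcD, hc⟩
  · intro b hb
    obtain ⟨j₀, hj₀⟩ := h3 b hb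
    obtain ⟨j, -, -, hj, -⟩ := hp j₀
    refine ⟨j, ?_⟩
    change A₀ (p j) = _
    rw [hj, hj₀]
  · intro e
    obtain ⟨j₀, hj₀⟩ := h4 e
    obtain ⟨j, j', hjj, hj, hj'⟩ := hp j₀
    by_cases h0 : j = 0
    · refine ⟨j', fun h => hjj (h0.trans h.symm), ?_⟩
      change A₀ (p j') = _
      rw [hj', hj₀]
    · refine ⟨j, h0, ?_⟩
      change A₀ (p j) = _
      rw [hj, hj₀]

/-- the same with a given first linear form -/
theorem rel_small_first (D : Set K) (h1 : (1 : K) ∈ D) (hneg : ∀ x ∈ D, -x ∈ D) [Algebra ℚ K]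
    (hD : Submodule.span ℚ D = ⊤) {M m : ℕ} (B : ℕ) {κ : Type} [Finite κ]
    (b : κ → Fin (M + 1) → K) (e₀ : κ) {ι : Type} (q : ι → MvPolynomial (Fin (M + 1)) K) :
    ∃ (N : ℕ) (A : Fin (N + 1) → Fin (M + 1) → K) (k : ℕ) (c : Fin k → Fin (N + 1) → K),
      Box B A ∧ A 0 = b e₀ ∧ (∀ e, ∃ j, j ≠ 0 ∧ A j = b e) ∧
      (∀ j, (∃ c : Fin (M + 1) → ℕ, (∀ i, c i ≤ B) ∧ A j = fun l => (c l : K)) ∨
        ∃ e, A j = b e) ∧
      (∀ i j, c i j = 0 ∨ c i j ∈ D) ∧ Submodule.span K (Set.range c) = rel m A q := by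
  obtain ⟨N₀, A₀, h3, h4, h5⟩ := exists_list (K := K) M B b
  obtain ⟨N, p, hp, k, c, hcD, hc⟩ := rel_fg_small D h1 hneg hD (m := m) A₀ q
  obtain ⟨j₁, hj₁⟩ := h4 e₀
  obtain ⟨i₁, -, -, hi₁, -⟩ := hp j₁
  set s : Fin (N + 1) ≃ Fin (N + 1) := Equiv.swap 0 i₁ with hs
  refine ⟨N, fun j => A₀ (p (s j)), k, fun i j => c i (s j), ?_, ?_, ?_, fun j => h5 _,
    fun i j => hcD i _, rel_perm (fun j => A₀ (p j)) q s hc⟩
  · intro b hb
    obtain ⟨j₀, hj₀⟩ := h3 b hb
    obtain ⟨j, -, -, hj, -⟩ := hp j₀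
    refine ⟨s.symm j, ?_⟩
    change A₀ (p (s (s.symm j))) = _
    rw [s.apply_symm_apply, hj, hj₀]
  · change A₀ (p (s 0)) = _
    rw [hs, Equiv.swap_apply_left, hi₁, hj₁]
  · intro e
    obtain ⟨j₀, hj₀⟩ := h4 e
    obtain ⟨j, j', hjj, hj, hj'⟩ := hp j₀
    by_cases h0 : s.symm j = 0
    · refine ⟨s.symm j', fun h => hjj (s.symm.injective (h0.trans h.symm)), ?_⟩
      change A₀ (p (s (s.symm j'))) = _
      rw [s.apply_symm_apply, hj', hj₀]
    · refine ⟨s.symm j, h0, ?_⟩
      change A₀ (p (s (s.symm j))) = _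
      rw [s.apply_symm_apply, hj, hj₀]

end

end Pool.Agent.H441.DQ
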