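import Pool.Agent.H441.DQ.Rel
import Pool.Agent.H441.DF.Curve

/-!
Holomorphic maps from the punctured disc to intersections of diagonal hypersurfaces.
-/

set_option autoImplicit false

open Filter Topology Set Metric

namespace Pool.Agent.H441.DQ

open Pool.Agent.Y190.AN Pool.Agent.W603.BP Pool.Agent.H159R3.GGLLog Pool.Agent.W602.GT
open Pool.Agent.H441.DF (BP_Minf root_const pcurve_of val_of of_val bound le_bound)

/-- the unit vectors -/
theorem box_unit {K : Type} [Field K] {M N B : ℕ} {A : Fin (N + 1) → Fin (M + 1) → K}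
    (ha : Box B A) (hB : 1 ≤ B) (l : Fin (M + 1)) : ∃ j, A j = Pi.single l 1 := by
  obtain ⟨j, hj⟩ := ha (Pi.single l 1) (fun i => by
    by_cases hi : i = l
    · subst hi
      rw [Pi.single_eq_same]
      exact hB
    · rw [Pi.single_eq_of_ne hi]
      exact Nat.zero_le _)
  refine ⟨j, ?_⟩
  rw [hj]
  funext i
  by_cases hi : i = l
  · subst hi
    rw [Pi.single_eq_same, Pi.single_eq_same, Nat.cast_one]
  · rw [Pi.single_eq_of_ne hi, Pi.single_eq_of_ne hi, Nat.cast_zero]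

/-- **The structure of the holomorphic maps from the punctured disc.** -/
theorem pcurve_rel {K : Type} [Field K] [CharZero K] (σ : K →+* ℂ) {M N m B : ℕ}
    {A : Fin (N + 1) → Fin (M + 1) → K} (hm : 2 ≤ m) (ha : Box B A) (hB : bound m ≤ B) {ι : Type}
    (q : ι → MvPolynomial (Fin (M + 1)) K) {f : ℂ → Fin (N + 1) → ℂ}
    (hf : DifferentiableOn ℂ f (ball 0 1 \ {0})) (hf0 : ∀ z ∈ ball (0 : ℂ) 1 \ {0}, f z ≠ 0)
    (hrel : ∀ z ∈ ball (0 : ℂ) 1 \ {0}, ∀ c ∈ rel m A q, ∑ j, σ (c j) * f z j ^ m = 0)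
    (hE : ¬ Extends f) : ∃ (ζ : Fin (N + 1) → ℂ) (b : Fin (M + 1) → Fin (N + 1)),
      (∀ j, ζ j ^ m = 1) ∧ ∀ z ∈ ball (0 : ℂ) 1 \ {0}, ∀ j,
        f z j = ζ j * ∑ l, σ (A j l) * ((ζ (b l))⁻¹ * f z (b l)) := by
  classical
  have hPC := pcurve_of hf hf0
  have hM : ∀ i, MeromorphicOn (fun z => f z⁻¹ i) (exD 1 one_pos).U := fun i z hz =>
    (coord_an hPC i z hz).meromorphicAt
  set y : Fin (N + 1) → MK (exD 1 one_pos) := fun i => cl _ (hM i) with hy
  let _ : Algebra K (MK (exD 1 one_pos)) := ((algebraMap ℂ (MK (exD 1 one_pos))).comp σ).toAlgebra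
  have hmap : ∀ x : K, algebraMap K (MK (exD 1 one_pos)) x =
      algebraMap ℂ (MK (exD 1 one_pos)) (σ x) := fun x => rfl
  have hyrel : ∀ c ∈ rel m A q, ∑ j, algebraMap K (MK (exD 1 one_pos)) (c j) * y j ^ m = 0 := by
    intro c hc
    have h1 := val_of hM (∑ j, MvPolynomial.C (σ (c j)) * MvPolynomial.X j ^ m) (fun z hz => by
      have h2 := hrel z hz c hc
      simpa using h2)
    unfold val at h1
    rw [map_sum] at h1
    rw [← h1]
    refine Finset.sum_congr rfl fun j _ => ?_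
    rw [map_mul, map_pow, MvPolynomial.aeval_C, MvPolynomial.aeval_X, hmap]
  rcases main_rel hm ha hB (BP_Minf (r0 := 1) (hr0 := one_pos) hm) (fun x => by
    rw [hmap]
    exact (Minf 1 one_pos).algebraMap_mem _) hyrel with h | ⟨w, hw⟩
  · exact absurd (extends_of_minf hPC hM fun i j _ => h i j) hE
  -- the roots of unity
  have hζ : ∀ j, ∃ c : ℂ, c ^ m = 1 ∧ y j = algebraMap ℂ (MK (exD 1 one_pos)) c *
      ∑ l, algebraMap K (MK (exD 1 one_pos)) (A j l) * w l := by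
    intro j
    by_cases h0 : ∑ l, algebraMap K (MK (exD 1 one_pos)) (A j l) * w l = 0
    · refine ⟨1, one_pow _, ?_⟩
      have h1 := hw j
      rw [h0, zero_pow (by omega)] at h1
      rw [h0, mul_zero]
      exact eq_zero_of_pow_eq_zero h1
    · obtain ⟨c, hc, hcζ⟩ := root_const (k := ℂ) (m := m) (by omega)
        (ζ := y j / ∑ l, algebraMap K (MK (exD 1 one_pos)) (A j l) * w l) (by
          rw [div_pow, hw j, div_self (pow_ne_zero _ h0)])
      refine ⟨c, hc, ?_⟩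
      rw [hcζ, div_mul_cancel₀ _ h0]
  choose ζ hζm hζ using hζ
  have hζ0 : ∀ j, ζ j ≠ 0 := by
    intro j h0
    have := hζm j
    rw [h0, zero_pow (by omega)] at this
    exact zero_ne_one this
  -- the unit vectors
  have hb : ∀ l : Fin (M + 1), ∃ j, A j = Pi.single l 1 :=
    box_unit ha (le_trans (DF.one_le_bound hm) hB)
  choose b hb using hb
  have hwb : ∀ l, w l = algebraMap ℂ (MK (exD 1 one_pos)) (ζ (b l))⁻¹ * y (b l) := by
    intro l
    have h1 : ∑ l', algebraMap K (MK (exD 1 one_pos)) (A (b l) l') * w l' = w l := by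
      rw [hb l, Finset.sum_eq_single l]
      · rw [Pi.single_eq_same, map_one, one_mul]
      · intro l' _ hl'
        rw [Pi.single_eq_of_ne hl', map_zero, zero_mul]
      · intro h
        exact absurd (Finset.mem_univ l) h
    rw [hζ (b l), h1, ← mul_assoc, ← map_mul, inv_mul_cancel₀ (hζ0 _), map_one, one_mul]
  refine ⟨ζ, b, hζm, fun z hz j => ?_⟩
  have h1 := of_val hM hf hf0 (MvPolynomial.X j - MvPolynomial.C (ζ j) *
    ∑ l, MvPolynomial.C (σ (A j l)) * (MvPolynomial.C (ζ (b l))⁻¹ * MvPolynomial.X (b l))) (by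
      have h2 := hζ j
      unfold val
      rw [map_sub, map_mul, map_sum, MvPolynomial.aeval_X, MvPolynomial.aeval_C, sub_eq_zero]
      change y j = _
      rw [h2]
      congr 1
      refine Finset.sum_congr rfl fun l _ => ?_
      rw [map_mul, map_mul, MvPolynomial.aeval_C, MvPolynomial.aeval_C, MvPolynomial.aeval_X,
        hmap]
      change _ = _ * (_ * y (b l))
      rw [hwb l]) z hz
  rw [map_sub, map_mul, map_sum, MvPolynomial.eval_X, MvPolynomial.eval_C, sub_eq_zero] at h1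
  rw [h1]
  congr 1
  refine Finset.sum_congr rfl fun l _ => ?_
  rw [map_mul, map_mul, MvPolynomial.eval_C, MvPolynomial.eval_C, MvPolynomial.eval_X]

/-- **The structure of the entire curves.** -/
theorem ecurve_rel {K : Type} [Field K] [CharZero K] (σ : K →+* ℂ) {M N m B : ℕ}
    {A : Fin (N + 1) → Fin (M + 1) → K} (hm : 2 ≤ m) (ha : Box B A) (hB : bound m ≤ B) {ι : Type}
    (q : ι → MvPolynomial (Fin (M + 1)) K) {f : ℂ → Fin (N + 1) → ℂ}
    (hf : Differentiable ℂ f) (hf0 : ∀ z, f z ≠ 0)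
    (hrel : ∀ z, ∀ c ∈ rel m A q, ∑ j, σ (c j) * f z j ^ m = 0)
    (hE : ∃ z w, ∀ c : ℂ, f w ≠ c • f z) : ∃ (ζ : Fin (N + 1) → ℂ) (b : Fin (M + 1) → Fin (N + 1)),
      (∀ j, ζ j ^ m = 1) ∧ ∀ z, ∀ j,
        f z j = ζ j * ∑ l, σ (A j l) * ((ζ (b l))⁻¹ * f z (b l)) := by
  have hEC : EntireCurve ∅ (fun e : Empty => (e.elim : MvPolynomial (Fin (N + 1)) ℂ)) f :=
    ⟨hf, fun z => ⟨hf0 z, fun j hj => absurd hj (Set.notMem_empty j), fun e => e.elim⟩, by
      obtain ⟨z, w, h⟩ := hE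
      exact ⟨w, z, h⟩⟩
  obtain ⟨h1, h2⟩ := sin_curve hEC
  obtain ⟨ζ, b, hζ, h3⟩ := pcurve_rel σ hm ha hB q h1.1 (fun z _ => hf0 _) (fun z _ => hrel _) h2
  refine ⟨ζ, b, hζ, fun z j => ?_⟩
  obtain ⟨w, hw, hwz⟩ := sin_point z
  have h4 := h3 w hw j
  rw [hwz] at h4
  exact h4

end Pool.Agent.H441.DQ
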