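import Pool.Agent.H441.DQ.Red

/-!
Embedding of quasi-projective schemes over the ring of integers of a number field in intersections of
diagonal hypersurfaces minus coordinate subspaces.
-/

set_option autoImplicit false

namespace Pool.Agent.H441.DQ

open MvPolynomial NumberField IsDedekindDomain
open Pool.Agent.N254.SQ hiding Extends lin
open Pool.Agent.H441.DF (bound diagonal diag_eval₂ diag_hom exists_mon exists_cut Cut)

/-- the diagonal form with coefficients in a ring -/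
noncomputable def dform {R : Type} [CommRing R] {N : ℕ} (m : ℕ) (c : Fin (N + 1) → R) :
    MvPolynomial (Fin (N + 1)) R := ∑ j, C (c j) * X j ^ m

theorem dform_eval {R S : Type} [CommRing R] [CommRing S] (τ : R →+* S) {N m : ℕ}
    (c : Fin (N + 1) → R) (y : Fin (N + 1) → S) :
    eval₂ τ y (dform m c) = ∑ j, τ (c j) * y j ^ m := by
  unfold dform
  rw [← coe_eval₂Hom, map_sum]
  refine Finset.sum_congr rfl fun j _ => ?_
  rw [map_mul, map_pow, coe_eval₂Hom, eval₂_C, eval₂_X]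

theorem dform_hom {R : Type} [CommRing R] {N m : ℕ} (c : Fin (N + 1) → R) :
    (dform m c).IsHomogeneous m := by
  unfold dform
  apply IsHomogeneous.sum
  intro j _
  have h1 := (isHomogeneous_C (Fin (N + 1)) (c j)).mul ((isHomogeneous_X R j).pow m)
  have e : 0 + 1 * m = m := by omega
  rwa [e] at h1

/-- the facts on the embedding -/
structure Emb {K : Type} [Field K] [NumberField K] (m : ℕ) {n N k : ℕ} {ι κ γ : Type}
    (F : ι → MvPolynomial (Fin (n + 1)) (𝓞 K)) (T : κ → MvPolynomial (Fin (n + 1)) (𝓞 K))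
    (G : γ → MvPolynomial (Fin (n + 1)) (𝓞 K))
    (Φ : ∀ (Ω : Type) [Field Ω], (K →+* Ω) → (Fin (n + 1) → Ω) → Fin (N + 1) → Ω)
    (c : Fin k → Fin (N + 1) → 𝓞 K) (I J : Set (Fin (N + 1))) : Prop where
  ne : ∀ (Ω : Type) [Field Ω] (τ : K →+* Ω) (x : Fin (n + 1) → Ω), x ≠ 0 → Φ Ω τ x ≠ 0
  inj : ∀ (Ω : Type) [Field Ω] (τ : K →+* Ω) (x x' : Fin (n + 1) → Ω) (s : Ω), x ≠ 0 →
    Φ Ω τ x = s • Φ Ω τ x' → ∃ t : Ω, x = t • x'
  smul : ∃ e : ℕ, ∀ (Ω : Type) [Field Ω] (τ : K →+* Ω) (x : Fin (n + 1) → Ω) (s : Ω),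
    Φ Ω τ (s • x) = s ^ e • Φ Ω τ x
  diff : ∀ (σ : K →+* ℂ) (f : ℂ → Fin (n + 1) → ℂ), Differentiable ℂ f →
    Differentiable ℂ fun z => Φ ℂ σ (f z)
  pts : ∀ (Ω : Type) [Field Ω] (τ : K →+* Ω) (x : Fin (n + 1) → Ω), x ≠ 0 →
    ((∀ i, eval₂ (τ.comp (algebraMap (𝓞 K) K)) x (F i) = 0) ↔
      ∀ i, eval₂ (τ.comp (algebraMap (𝓞 K) K)) (Φ Ω τ x) (dform m (c i)) = 0)
  onT : ∀ (Ω : Type) [Field Ω] (τ : K →+* Ω) (x : Fin (n + 1) → Ω), x ≠ 0 →
    ((∃ i ∈ I, Φ Ω τ x i ≠ 0) ↔ ∃ k, eval₂ (τ.comp (algebraMap (𝓞 K) K)) x (T k) ≠ 0)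
  onG : ∀ (Ω : Type) [Field Ω] (τ : K →+* Ω) (x : Fin (n + 1) → Ω), x ≠ 0 →
    ((∀ j ∈ J, Φ Ω τ x j = 0) ↔ ∀ l, eval₂ (τ.comp (algebraMap (𝓞 K) K)) x (G l) = 0)
  red : ∀ (L : Type) [Field L] [NumberField L] [Algebra K L] (x : Fin (n + 1) → L)
    (y : Fin (N + 1) → L) (t : L), x ≠ 0 → t ≠ 0 →
    (∀ j, y j ^ m = t * Φ L (algebraMap K L) x j ^ m) → ∀ w : HeightOneSpectrum (𝓞 L),
    (RedNotIn (fun i : I => (X (i : Fin (N + 1)) : MvPolynomial (Fin (N + 1)) (𝓞 K))) y w ↔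
      RedNotIn T x w)
  curves : ∀ (σ : K →+* ℂ) (f : ℂ → Fin (N + 1) → ℂ), Differentiable ℂ f → (∀ z, f z ≠ 0) →
    (∀ z i, eval₂ (σ.comp (algebraMap (𝓞 K) K)) (f z) (dform m (c i)) = 0) →
    (∃ z w, ∀ c : ℂ, f w ≠ c • f z) →
    ∃ (ζ : Fin (N + 1) → ℂ) (x : ℂ → Fin (n + 1) → ℂ), (∀ j, ζ j ^ m = 1) ∧
      Differentiable ℂ x ∧ (∀ z, x z ≠ 0) ∧
      (∀ z i, eval₂ (σ.comp (algebraMap (𝓞 K) K)) (x z) (F i) = 0) ∧
      ∀ z j, f z j = ζ j * Φ ℂ σ (x z) j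
  copies : ∃ (κ₁ : Type) (_ : Finite κ₁) (Z : κ₁ → MvPolynomial (Fin (N + 1)) (𝓞 K)),
    (∀ s, ∃ d, (Z s).IsHomogeneous d) ∧
    (∀ (Ω : Type) [Field Ω] (τ : K →+* Ω) (x : Fin (n + 1) → Ω) (y : Fin (N + 1) → Ω) (t : Ω),
      (∀ i, eval₂ (τ.comp (algebraMap (𝓞 K) K)) x (F i) = 0) →
      (∀ j, y j ^ m = t * Φ Ω τ x j ^ m) →
        ∀ s, eval₂ (τ.comp (algebraMap (𝓞 K) K)) y (Z s) = 0) ∧
    ∀ (Ω : Type) [Field Ω] (τ : K →+* Ω) (y : Fin (N + 1) → Ω), y ≠ 0 →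
      (∀ i, eval₂ (τ.comp (algebraMap (𝓞 K) K)) y (dform m (c i)) = 0) →
      (∀ s, eval₂ (τ.comp (algebraMap (𝓞 K) K)) y (Z s) = 0) →
      ∃ (x : Fin (n + 1) → Ω) (t : Ω), x ≠ 0 ∧ t ≠ 0 ∧
        (∀ i, eval₂ (τ.comp (algebraMap (𝓞 K) K)) x (F i) = 0) ∧
        ∀ j, y j ^ m = t * Φ Ω τ x j ^ m

/-- a form with denominators -/
theorem denom {K : Type} [Field K] [NumberField K] {N d : ℕ}
    (q : MvPolynomial (Fin (N + 1)) K) (hq : q.IsHomogeneous d) :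
    ∃ (c : 𝓞 K) (q' : MvPolynomial (Fin (N + 1)) (𝓞 K)), c ≠ 0 ∧ q'.IsHomogeneous d ∧
      map (algebraMap (𝓞 K) K) q' = C (algebraMap (𝓞 K) K c) * q := by
  classical
  obtain ⟨⟨b, hb⟩, hb2⟩ := IsLocalization.exist_integer_multiples_of_finset
    (nonZeroDivisors (𝓞 K)) (q.support.image fun s => coeff s q)
  have h1 : ∀ s ∈ q.support, ∃ r : 𝓞 K, algebraMap (𝓞 K) K r = b • coeff s q := by
    intro s hs
    obtain ⟨r, hr⟩ := hb2 _ (Finset.mem_image_of_mem _ hs)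
    exact ⟨r, hr⟩
  choose! r hr using h1
  have h2 : map (algebraMap (𝓞 K) K) (∑ s ∈ q.support, monomial s (r s)) =
      C (algebraMap (𝓞 K) K b) * q := by
    conv_rhs => rw [q.as_sum]
    rw [map_sum, Finset.mul_sum]
    refine Finset.sum_congr rfl fun s hs => ?_
    rw [map_monomial, hr s hs, C_mul_monomial, Algebra.smul_def]
  refine ⟨b, ∑ s ∈ q.support, monomial s (r s), nonZeroDivisors.ne_zero hb, ?_, h2⟩
  apply IsHomogeneous.of_map (f := algebraMap (𝓞 K) K)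
    (FaithfulSMul.algebraMap_injective (𝓞 K) K)
  rw [h2]
  have h3 := (isHomogeneous_C (Fin (N + 1)) (algebraMap (𝓞 K) K b)).mul hq
  rwa [zero_add] at h3

/-- vectors of natural numbers are vectors of coefficients of forms -/
theorem nat_vec {K : Type} [Field K] {n M e : ℕ} {v : Fin (M + 1) → Fin (n + 1) → ℕ}
    (hv : Mon n M e v) (c : Fin (M + 1) → ℕ) : ∃ P : MvPolynomial (Fin (n + 1)) (𝓞 K),
      P.IsHomogeneous e ∧ (fun l => (c l : K)) = vec v P := by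
  classical
  refine ⟨∑ l, monomial (Finsupp.equivFunOnFinite.symm (v l)) (c l : 𝓞 K), ?_, ?_⟩
  · apply IsHomogeneous.sum
    intro l _
    apply isHomogeneous_monomial
    rw [Finsupp.degree_eq_sum]
    exact hv.deg l
  · funext l
    unfold vec
    rw [coeff_sum, Finset.sum_eq_single l]
    · rw [coeff_monomial, if_pos rfl, map_natCast]
    · intro l' _ hl'
      rw [coeff_monomial, if_neg]
      intro h
      exact hl' (hv.inj (Finsupp.equivFunOnFinite.symm.injective h))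
    · intro h
      exact absurd (Finset.mem_univ l) h

/-- the embedding -/
theorem emb_of {K : Type} [Field K] [NumberField K] {m n M e N k : ℕ} (hm : 2 ≤ m) (he : 1 ≤ e)
    {v : Fin (M + 1) → Fin (n + 1) → ℕ} (hv : Mon n M e v) {ι ι' κ γ : Type} [Finite ι']
    {F : ι → MvPolynomial (Fin (n + 1)) (𝓞 K)} {T : κ → MvPolynomial (Fin (n + 1)) (𝓞 K)}
    {G : γ → MvPolynomial (Fin (n + 1)) (𝓞 K)} (hF : ∀ i, ∃ d, (F i).IsHomogeneous d)
    (hT : ∀ k, (T k).IsHomogeneous e) (hG : ∀ k, (G k).IsHomogeneous e)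
    {q : ι' → MvPolynomial (Fin (M + 1)) K}
    (hC : Cut v (fun i => map (algebraMap (𝓞 K) K) (F i)) q) {A : Fin (N + 1) → Fin (M + 1) → K}
    (ha : Box (bound m) A)
    (hA : ∀ j, ∃ P : MvPolynomial (Fin (n + 1)) (𝓞 K), P.IsHomogeneous e ∧ A j = vec v P)
    {c : Fin k → Fin (N + 1) → 𝓞 K}
    (hc : Submodule.span K (Set.range fun i j => algebraMap (𝓞 K) K (c i j)) = rel m A q)
    {I J : Set (Fin (N + 1))} (hI1 : ∀ i ∈ I, ∃ k, A i = vec v (T k))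
    (hI2 : ∀ k, ∃ i ∈ I, A i = vec v (T k)) (hJ1 : ∀ i ∈ J, ∃ k, A i = vec v (G k))
    (hJ2 : ∀ k, ∃ i ∈ J, A i = vec v (G k)) :
    Emb m F T G (fun Ω _ τ x => lins τ A (ver v x)) c I J := by
  classical
  have eF : ∀ (Ω : Type) [Field Ω] (τ : K →+* Ω) (x : Fin (n + 1) → Ω),
      (∀ i, eval₂ (τ.comp (algebraMap (𝓞 K) K)) x (F i) = 0) ↔
        ∀ i, eval₂ τ x (map (algebraMap (𝓞 K) K) (F i)) = 0 := by
    intro Ω _ τ x
    simp only [eval₂_map]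
  have hFKh : ∀ i, ∃ e, (map (algebraMap (𝓞 K) K) (F i)).IsHomogeneous e := by
    intro i
    obtain ⟨e, he⟩ := hF i
    exact ⟨e, he.map _⟩
  have hBm := bound_ge hm (le_refl (bound m))
  have hX : ∀ (Ω : Type) [Field Ω] (τ : K →+* Ω) (y : Fin (N + 1) → Ω) (i : Fin k),
      eval₂ (τ.comp (algebraMap (𝓞 K) K)) y (dform m (c i)) =
        eval₂ τ y (diagonal m fun j => algebraMap (𝓞 K) K (c i j)) := by
    intro Ω _ τ y i
    rw [dform_eval, diag_eval₂]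
    rfl
  have hvec : ∀ (Ω : Type) [Field Ω] (τ : K →+* Ω) (x : Fin (n + 1) → Ω) (j : Fin (N + 1))
      (P : MvPolynomial (Fin (n + 1)) (𝓞 K)), P.IsHomogeneous e → A j = vec v P →
      lins τ A (ver v x) j = eval₂ (τ.comp (algebraMap (𝓞 K) K)) x P := by
    intro Ω _ τ x j P hP hAj
    unfold lins
    rw [hAj]
    exact vec_eval hv hP τ x
  refine ⟨?_, ?_, ?_, ?_, ?_, ?_, ?_, ?_, ?_, ?_⟩
  · intro Ω _ τ x hx
    exact lins_ne τ ha hBm.2 (ver_ne_zero hv he hx)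
  · intro Ω _ τ x x' s hx h
    exact ver_prop hv he hx (lins_prop τ ha hBm.2 h)
  · refine ⟨e, fun Ω _ τ x s => ?_⟩
    rw [ver_smul hv, lins_smul]
  · intro σ f hf
    rw [differentiable_pi]
    intro j
    unfold lins
    exact Differentiable.fun_sum fun l _ =>
      ((differentiable_pi.1 (ver_diff hf)) l).const_mul _
  · intro Ω _ τ x hx
    rw [eF]
    simp only [hX]
    let _ : Algebra K Ω := τ.toAlgebra
    exact pts_iff hm ha hBm.1 hC hv he hFKh hc hx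
  · intro Ω _ τ x hx
    constructor
    · rintro ⟨i, hi, hi0⟩
      obtain ⟨k, hk⟩ := hI1 i hi
      exact ⟨k, by rwa [hvec Ω τ x i _ (hT k) hk] at hi0⟩
    · rintro ⟨k, hk⟩
      obtain ⟨j, hjI, hj⟩ := hI2 k
      exact ⟨j, hjI, by rwa [hvec Ω τ x j _ (hT k) hj]⟩
  · intro Ω _ τ x hx
    constructor
    · intro h l
      obtain ⟨j, hjJ, hj⟩ := hJ2 l
      rw [← hvec Ω τ x j _ (hG l) hj]
      exact h j hjJ
    · intro h j hjJ
      obtain ⟨l, hl⟩ := hJ1 j hjJ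
      rw [hvec Ω τ x j _ (hG l) hl]
      exact h l
  · intro L _ _ _ x y t hx ht hy w
    exact red_iff (by omega) hv A T hT (box_unit ha hBm.2) hA I hI1 hI2 hx ht hy w
  · intro σ f hf hf0 hfX hE
    obtain ⟨ζ, x, hζ, hxd, hx0, hxF, hfx⟩ := entire hm ha le_rfl hC hv he hFKh hc σ hf hf0
      (fun z i => by
        rw [← hX]
        exact hfX z i) hE
    exact ⟨ζ, x, hζ, hxd, hx0, fun z => (eF ℂ σ (x z)).2 (hxF z), hfx⟩
  · obtain ⟨κ₁, _, Z, hZ, hZa, hZb⟩ := zeq hm ha hBm.1 q hC.hom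
    choose d Z' hd hZ' hZZ using fun s => denom (Z s) (hZ s)
    have eZ : ∀ (Ω : Type) [Field Ω] (τ : K →+* Ω) (y : Fin (N + 1) → Ω) (s : κ₁),
        eval₂ (τ.comp (algebraMap (𝓞 K) K)) y (Z' s) = 0 ↔ eval₂ τ y (Z s) = 0 :=
      fun Ω _ τ y s => zb_zero τ (hd s) (hZZ s) y
    refine ⟨κ₁, inferInstance, Z', fun s => ⟨_, hZ' s⟩, ?_, ?_⟩
    · intro Ω _ τ x y t hxF hy s
      rw [eZ]
      let _ : Algebra K Ω := τ.toAlgebra
      exact hZa Ω (ver v x) y t (hC.fwd Ω x ((eF Ω τ x).1 hxF)) hy s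
    · intro Ω _ τ y hy0 hyX hyZ
      let _ : Algebra K Ω := τ.toAlgebra
      have h2 : ∀ i, aeval y (diagonal m fun j => algebraMap (𝓞 K) K (c i j)) = 0 := by
        intro i
        have := hyX i
        rw [hX] at this
        exact this
      obtain ⟨w, t, hw, ht, hq, hyw⟩ := hZb Ω y hy0 (fun b hb => (eqs_iff hc y).1 h2 b (by
        rw [mem_rel, hb]
        exact Submodule.zero_mem _)) (fun s => (eZ Ω τ y s).1 (hyZ s))
      obtain ⟨x, a, b, hxa, hwb, hwc, hxF⟩ := hC.inv Ω w hw hq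
      have hx0 : x ≠ 0 := by
        rintro rfl
        exact zero_ne_one hxa
      have hwx : w = w b • ver v x := funext fun l => hwc l
      refine ⟨x, t * w b ^ m, hx0, mul_ne_zero ht (pow_ne_zero _ hwb), (eF Ω τ x).2 hxF,
        fun j => ?_⟩
      have e1 : lins (algebraMap K Ω) A w j = w b * lins (algebraMap K Ω) A (ver v x) j := by
        conv_lhs => rw [hwx]
        rw [lins_smul, Pi.smul_apply, smul_eq_mul]
      rw [hyw j, e1, mul_pow, ← mul_assoc]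
      rfl

/-- equivalent forms -/
theorem Emb.congr {K : Type} [Field K] [NumberField K] {m n N k : ℕ} {ι κ κ' γ γ' : Type}
    {F : ι → MvPolynomial (Fin (n + 1)) (𝓞 K)} {T : κ → MvPolynomial (Fin (n + 1)) (𝓞 K)}
    {G : γ → MvPolynomial (Fin (n + 1)) (𝓞 K)} {T' : κ' → MvPolynomial (Fin (n + 1)) (𝓞 K)}
    {G' : γ' → MvPolynomial (Fin (n + 1)) (𝓞 K)}
    {Φ : ∀ (Ω : Type) [Field Ω], (K →+* Ω) → (Fin (n + 1) → Ω) → Fin (N + 1) → Ω}
    {c : Fin k → Fin (N + 1) → 𝓞 K} {I J : Set (Fin (N + 1))} (hE : Emb m F T' G' Φ c I J)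
    (h1 : ∀ (Ω : Type) [Field Ω] (τ : 𝓞 K →+* Ω) (x : Fin (n + 1) → Ω), x ≠ 0 →
        ((∃ k, eval₂ τ x (T' k) ≠ 0) ↔ ∃ k, eval₂ τ x (T k) ≠ 0))
    (h2 : ∀ (L : Type) [Field L] [NumberField L] [Algebra K L] (x : Fin (n + 1) → L)
        (v : HeightOneSpectrum (𝓞 L)), RedNotIn T' x v ↔ RedNotIn T x v)
    (h3 : ∀ (Ω : Type) [Field Ω] (τ : K →+* Ω) (x : Fin (n + 1) → Ω), x ≠ 0 →
        ((∀ l, eval₂ (τ.comp (algebraMap (𝓞 K) K)) x (G' l) = 0) ↔
          ∀ l, eval₂ (τ.comp (algebraMap (𝓞 K) K)) x (G l) = 0)) : Emb m F T G Φ c I J := by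
  refine ⟨hE.ne, hE.inj, hE.smul, hE.diff, hE.pts, ?_, ?_, ?_, hE.curves, hE.copies⟩
  · intro Ω _ τ x hx
    rw [hE.onT Ω τ x hx, h1 Ω _ x hx]
  · intro Ω _ τ x hx
    rw [hE.onG Ω τ x hx, h3 Ω _ x hx]
  · intro L _ _ _ x y t hx ht hy w
    rw [hE.red L x y t hx ht hy w, h2]

/-- finitely many multiples of degree `e` of the forms `G` -/
theorem exists_finite {K : Type} [Field K] [NumberField K] {n : ℕ} {γ : Type}
    (G : γ → MvPolynomial (Fin (n + 1)) (𝓞 K)) (hG : ∀ i, ∃ e, (G i).IsHomogeneous e) :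
    ∃ e₀ : ℕ, ∀ e, e₀ ≤ e → ∃ (γ' : Type) (_ : Finite γ')
      (G' : γ' → MvPolynomial (Fin (n + 1)) (𝓞 K)), (∀ k, (G' k).IsHomogeneous e) ∧
      ∀ (Ω : Type) [Field Ω] (τ : K →+* Ω) (x : Fin (n + 1) → Ω), x ≠ 0 →
        ((∀ l, eval₂ (τ.comp (algebraMap (𝓞 K) K)) x (G' l) = 0) ↔
          ∀ l, eval₂ (τ.comp (algebraMap (𝓞 K) K)) x (G l) = 0) := by
  classical
  obtain ⟨T₀, hT₀, hTG⟩ := reduce (Set.range fun l => map (algebraMap (𝓞 K) K) (G l))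
  choose g hg' using fun p : T₀ => hT₀ p.2
  have hg : ∀ p : T₀, map (algebraMap (𝓞 K) K) (G (g p)) = p := hg'
  obtain ⟨G₀, hG₀⟩ : ∃ G₀ : T₀ → MvPolynomial (Fin (n + 1)) (𝓞 K), G₀ = fun p => G (g p) :=
    ⟨_, rfl⟩
  have eG : ∀ (Ω : Type) [Field Ω] (τ : K →+* Ω) (x : Fin (n + 1) → Ω),
      (∀ i, eval₂ (τ.comp (algebraMap (𝓞 K) K)) x (G₀ i) = 0) ↔
        ∀ i, eval₂ (τ.comp (algebraMap (𝓞 K) K)) x (G i) = 0 := by
    intro Ω _ τ x
    constructor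
    · intro h i
      have h2 := hTG Ω τ x (fun p hp => by
        have h3 := h ⟨p, hp⟩
        rw [hG₀] at h3
        simp only at h3
        rw [← eval₂_map, hg ⟨p, hp⟩] at h3
        rw [eval_map]
        exact h3) _ ⟨i, rfl⟩
      rw [eval_map, eval₂_map] at h2
      exact h2
    · intro h p
      rw [hG₀]
      exact h _
  have hG₀h : ∀ i, ∃ e, (G₀ i).IsHomogeneous e := by
    intro i
    rw [hG₀]
    exact hG _
  choose eG' heG using hG₀h
  refine ⟨Finset.univ.sup eG', fun e he => ?_⟩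
  obtain ⟨γ', hγ', G', hG'h, hG'e, -⟩ := exists_mult (e := e) G₀ fun i =>
    ⟨eG' i, (Finset.le_sup (f := eG') (Finset.mem_univ i)).trans he, heG i⟩
  refine ⟨γ', hγ', G', hG'h, fun Ω _ τ x hx => ?_⟩
  rw [← eG]
  have h2 := hG'e Ω (τ.comp (algebraMap (𝓞 K) K)) x hx
  rw [← not_iff_not]
  push Not
  exact h2

theorem exists_emb {K : Type} [Field K] [NumberField K] (D : Set (𝓞 K)) (h1D : (1 : 𝓞 K) ∈ D)
    (hneg : ∀ x ∈ D, -x ∈ D) (hD : Submodule.span ℚ (algebraMap (𝓞 K) K '' D) = ⊤) {m : ℕ}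
    (hm : 2 ≤ m) {n : ℕ} {ι κ γ : Type} [Finite ι] [Finite κ]
    (F : ι → MvPolynomial (Fin (n + 1)) (𝓞 K)) (T : κ → MvPolynomial (Fin (n + 1)) (𝓞 K))
    (G : γ → MvPolynomial (Fin (n + 1)) (𝓞 K)) (hF : ∀ i, ∃ e, (F i).IsHomogeneous e)
    (hT : ∀ i, ∃ e, (T i).IsHomogeneous e) (hG : ∀ i, ∃ e, (G i).IsHomogeneous e) :
    ∃ (N k : ℕ) (Φ : ∀ (Ω : Type) [Field Ω], (K →+* Ω) → (Fin (n + 1) → Ω) → Fin (N + 1) → Ω)
      (c : Fin k → Fin (N + 1) → 𝓞 K) (I J : Set (Fin (N + 1))),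
      (∀ i j, c i j = 0 ∨ c i j ∈ D) ∧ Emb m F T G Φ c I J := by
  classical
  obtain ⟨e₀, hG'⟩ := exists_finite G hG
  obtain ⟨e, he, hee, hdF, hdT⟩ : ∃ e, 1 ≤ e ∧ e₀ ≤ e ∧
      (∀ i, ∃ d ≤ e, (map (algebraMap (𝓞 K) K) (F i)).IsHomogeneous d) ∧
      (∀ i, ∃ d ≤ e, (T i).IsHomogeneous d) := by
    have := Fintype.ofFinite ι
    have := Fintype.ofFinite κ
    choose eF heF using hF
    choose eT heT using hT
    refine ⟨max (max 1 e₀) (max (Finset.univ.sup eF) (Finset.univ.sup eT)),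
      (le_max_left _ _).trans (le_max_left _ _), (le_max_right _ _).trans (le_max_left _ _),
      fun i => ⟨eF i, ?_, (heF i).map _⟩, fun i => ⟨eT i, ?_, heT i⟩⟩
    · exact (Finset.le_sup (f := eF) (Finset.mem_univ i)).trans
        ((le_max_left _ _).trans (le_max_right _ _))
    · exact (Finset.le_sup (f := eT) (Finset.mem_univ i)).trans
        ((le_max_right _ _).trans (le_max_right _ _))
  obtain ⟨γ', _, G', hG'h, hG'e⟩ := hG' e hee
  obtain ⟨κ', _, T', hT'h, hT'e, hT'r⟩ := exists_mult T hdT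
  obtain ⟨M, v, hv⟩ := exists_mon n e
  obtain ⟨ι', _, q, hC⟩ := exists_cut hv he (fun i => map (algebraMap (𝓞 K) K) (F i)) hdF
  -- the linear forms
  obtain ⟨N, A, k, c', ha, hb, hA, hcD, hc⟩ := rel_small (K := K) (algebraMap (𝓞 K) K '' D)
    ⟨1, h1D, map_one _⟩ (by
      rintro _ ⟨x, hx, rfl⟩
      exact ⟨-x, hneg x hx, map_neg _ _⟩) hD (m := m) (bound m)
    (κ := κ' ⊕ γ') (Sum.elim (fun k => vec v (T' k)) fun l => vec v (G' l)) q
  have hcD' : ∀ i j, ∃ r : 𝓞 K, c' i j = algebraMap (𝓞 K) K r ∧ (r = 0 ∨ r ∈ D) := by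
    intro i j
    rcases hcD i j with h | ⟨r, hr, h⟩
    · exact ⟨0, by rw [h, map_zero], Or.inl rfl⟩
    · exact ⟨r, h.symm, Or.inr hr⟩
  choose c hcc hcD' using hcD'
  have hc' : Submodule.span K (Set.range fun i j => algebraMap (𝓞 K) K (c i j)) = rel m A q := by
    rw [← hc]
    congr 2
    funext i j
    rw [hcc]
  have hA' : ∀ j, ∃ P : MvPolynomial (Fin (n + 1)) (𝓞 K), P.IsHomogeneous e ∧ A j = vec v P := by
    intro j
    rcases hA j with ⟨b, -, hb⟩ | ⟨k | l, hk⟩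
    · obtain ⟨P, hP, hPb⟩ := nat_vec (K := K) hv b
      exact ⟨P, hP, by rw [hb, hPb]⟩
    · exact ⟨T' k, hT'h k, hk⟩
    · exact ⟨G' l, hG'h l, hk⟩
  refine ⟨N, k, _, c, {j | ∃ k, A j = vec v (T' k)}, {j | ∃ l, A j = vec v (G' l)}, hcD',
    (emb_of hm he hv hF hT'h hG'h hC ha hA' hc' (fun i hi => hi) (fun k => ?_) (fun i hi => hi)
      (fun l => ?_)).congr hT'e hT'r hG'e⟩
  · obtain ⟨j, -, hj⟩ := hb (Sum.inl k)
    exact ⟨j, ⟨k, hj⟩, hj⟩
  · obtain ⟨j, -, hj⟩ := hb (Sum.inr l)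
    exact ⟨j, ⟨l, hj⟩, hj⟩

/-- the affine case -/
theorem exists_emb_affine {K : Type} [Field K] [NumberField K] (D : Set (𝓞 K))
    (h1D : (1 : 𝓞 K) ∈ D)
    (hneg : ∀ x ∈ D, -x ∈ D) (hD : Submodule.span ℚ (algebraMap (𝓞 K) K '' D) = ⊤) {m : ℕ}
    (hm : 2 ≤ m) {n : ℕ} {ι γ : Type} [Finite ι]
    (F : ι → MvPolynomial (Fin (n + 1)) (𝓞 K))
    (G : γ → MvPolynomial (Fin (n + 1)) (𝓞 K)) (hF : ∀ i, ∃ e, (F i).IsHomogeneous e)
    (hG : ∀ i, ∃ e, (G i).IsHomogeneous e) :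
    ∃ (N k : ℕ) (Φ : ∀ (Ω : Type) [Field Ω], (K →+* Ω) → (Fin (n + 1) → Ω) → Fin (N + 1) → Ω)
      (c : Fin k → Fin (N + 1) → 𝓞 K) (J : Set (Fin (N + 1))), 0 ∉ J ∧
      (∀ i j, c i j = 0 ∨ c i j ∈ D) ∧
      Emb m F (fun _ : Unit => (X 0 : MvPolynomial (Fin (n + 1)) (𝓞 K))) G Φ c {0} J ∧
      ∃ (e : ℕ) (P : Fin (N + 1) → MvPolynomial (Fin (n + 1)) (𝓞 K)), 1 ≤ e ∧
        (∀ j, (P j).IsHomogeneous e) ∧ P 0 = X 0 ^ e ∧
        (∀ i : Fin n, ∃ j : Fin N, P j.succ = X 0 ^ (e - 1) * X i.succ) ∧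
        ∀ (Ω : Type) [Field Ω] (τ : K →+* Ω) (x : Fin (n + 1) → Ω) (j : Fin (N + 1)),
          Φ Ω τ x j = eval₂ (τ.comp (algebraMap (𝓞 K) K)) x (P j) := by
  classical
  obtain ⟨e₀, hG'⟩ := exists_finite G hG
  obtain ⟨e, he, hee, hdF⟩ : ∃ e, 1 ≤ e ∧ e₀ ≤ e ∧
      (∀ i, ∃ d ≤ e, (map (algebraMap (𝓞 K) K) (F i)).IsHomogeneous d) := by
    have := Fintype.ofFinite ι
    choose eF heF using hF
    refine ⟨max (max 1 e₀) (Finset.univ.sup eF),
      (le_max_left _ _).trans (le_max_left _ _), (le_max_right _ _).trans (le_max_left _ _),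
      fun i => ⟨eF i, ?_, (heF i).map _⟩⟩
    exact (Finset.le_sup (f := eF) (Finset.mem_univ i)).trans (le_max_right _ _)
  obtain ⟨γ', _, G', hG'h, hG'e⟩ := hG' e hee
  obtain ⟨T', hT'⟩ : ∃ T' : Unit → MvPolynomial (Fin (n + 1)) (𝓞 K), T' = fun _ => X 0 ^ e :=
    ⟨_, rfl⟩
  have hT'h : ∀ k, (T' k).IsHomogeneous e := by
    intro k
    rw [hT']
    have := (isHomogeneous_X (𝓞 K) (0 : Fin (n + 1))).pow e
    rwa [one_mul] at this
  obtain ⟨M, v, hv⟩ := exists_mon n e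
  obtain ⟨ι', _, q, hC⟩ := exists_cut hv he (fun i => map (algebraMap (𝓞 K) K) (F i)) hdF
  -- the linear forms
  obtain ⟨N, A, k, c', ha, ha0, hb, hA, hcD, hc⟩ := rel_small_first (K := K)
    (algebraMap (𝓞 K) K '' D) ⟨1, h1D, map_one _⟩ (by
      rintro _ ⟨x, hx, rfl⟩
      exact ⟨-x, hneg x hx, map_neg _ _⟩) hD (m := m) (bound m)
    (κ := Unit ⊕ γ') (Sum.elim (fun k => vec v (T' k)) fun l => vec v (G' l)) (Sum.inl ()) q
  have hcD' : ∀ i j, ∃ r : 𝓞 K, c' i j = algebraMap (𝓞 K) K r ∧ (r = 0 ∨ r ∈ D) := by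
    intro i j
    rcases hcD i j with h | ⟨r, hr, h⟩
    · exact ⟨0, by rw [h, map_zero], Or.inl rfl⟩
    · exact ⟨r, h.symm, Or.inr hr⟩
  choose c hcc hcD' using hcD'
  have hc' : Submodule.span K (Set.range fun i j => algebraMap (𝓞 K) K (c i j)) = rel m A q := by
    rw [← hc]
    congr 2
    funext i j
    rw [hcc]
  have hA' : ∀ j, ∃ P : MvPolynomial (Fin (n + 1)) (𝓞 K), P.IsHomogeneous e ∧ A j = vec v P := by
    intro j
    rcases hA j with ⟨b, -, hb⟩ | ⟨k | l, hk⟩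
    · obtain ⟨P, hP, hPb⟩ := nat_vec (K := K) hv b
      exact ⟨P, hP, by rw [hb, hPb]⟩
    · exact ⟨T' k, hT'h k, hk⟩
    · exact ⟨G' l, hG'h l, hk⟩
  -- the forms
  have hone : ∀ i : Fin (n + 1), (X 0 ^ (e - 1) * X i :
      MvPolynomial (Fin (n + 1)) (𝓞 K)).IsHomogeneous e := by
    intro i
    have h1 := ((isHomogeneous_X (𝓞 K) (0 : Fin (n + 1))).pow (e - 1)).mul
      (isHomogeneous_X (𝓞 K) i)
    have h2 : 1 * (e - 1) + 1 = e := by omega
    rwa [h2] at h1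
  have hunitv : ∀ i : Fin (n + 1), ∃ l, (vec v (X 0 ^ (e - 1) * X i :
      MvPolynomial (Fin (n + 1)) (𝓞 K)) : Fin (M + 1) → K) = Pi.single l 1 := by
    intro i
    have hmon : (X 0 ^ (e - 1) * X i : MvPolynomial (Fin (n + 1)) (𝓞 K)) =
        monomial (Finsupp.single 0 (e - 1) + Finsupp.single i 1) 1 := by
      rw [X_pow_eq_monomial, X, monomial_mul, one_mul]
    obtain ⟨l, hl⟩ := hv.surj (fun j => (Finsupp.single 0 (e - 1) + Finsupp.single i 1 :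
      Fin (n + 1) →₀ ℕ) j) (by
        simp only [Finsupp.add_apply]
        rw [Finset.sum_add_distrib]
        have h1 : ∑ j, (Finsupp.single (0 : Fin (n + 1)) (e - 1)) j = e - 1 := by
          rw [Finset.sum_eq_single 0]
          · simp
          · intro b _ hb
            simp [hb.symm]
          · intro h
            exact absurd (Finset.mem_univ _) h
        have h2 : ∑ j, (Finsupp.single i 1) j = 1 := by
          rw [Finset.sum_eq_single i]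
          · simp
          · intro b _ hb
            simp [hb.symm]
          · intro h
            exact absurd (Finset.mem_univ _) h
        omega)
    refine ⟨l, ?_⟩
    funext l'
    unfold vec
    rw [hmon, coeff_monomial]
    by_cases h : l' = l
    · subst h
      rw [if_pos, map_one, Pi.single_eq_same]
      rw [hl]
      ext j
      rfl
    · rw [if_neg, map_zero, Pi.single_eq_of_ne h]
      intro h2
      apply h
      apply hv.inj
      rw [hl]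
      funext j
      rw [h2]
      rfl
  have hx0e : (X 0 ^ e : MvPolynomial (Fin (n + 1)) (𝓞 K)) = X 0 ^ (e - 1) * X 0 := by
    rw [← pow_succ]
    congr 1
    omega
  have hvinj : ∀ P Q : MvPolynomial (Fin (n + 1)) (𝓞 K), P.IsHomogeneous e → Q.IsHomogeneous e →
      (vec v P : Fin (M + 1) → K) = vec v Q → P = Q := by
    intro P Q hP hQ h
    refine MvPolynomial.ext _ _ fun s => ?_
    by_cases hs : ∑ j, s j = e
    · obtain ⟨l, hl⟩ := hv.surj (fun j => s j) hs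
      have h1 := congrFun h l
      unfold vec at h1
      have h2 := FaithfulSMul.algebraMap_injective (𝓞 K) K h1
      have h3 : (Finsupp.equivFunOnFinite.symm (v l) : Fin (n + 1) →₀ ℕ) = s := by
        rw [hl]
        ext j
        rfl
      rwa [h3] at h2
    · have h1 : ∀ R : MvPolynomial (Fin (n + 1)) (𝓞 K), R.IsHomogeneous e → coeff s R = 0 := by
        intro R hR
        by_contra hne
        have h2 := hR hne
        rw [Finsupp.weight_apply, Finsupp.sum_fintype _ _ (fun _ => by simp)] at h2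
        exact hs (by simpa using h2)
      rw [h1 P hP, h1 Q hQ]
  choose P hPh hPA using hA'
  have hP0 : P 0 = X 0 ^ e := by
    apply hvinj _ _ (hPh 0)
    · rw [hx0e]
      exact hone 0
    · rw [← hPA 0, ha0, hT']
      rfl
  refine ⟨N, k, _, c, {j | j ≠ 0 ∧ ∃ l, A j = vec v (G' l)}, fun h => h.1 rfl, hcD',
    (emb_of hm he hv hF hT'h hG'h hC ha (fun j => ⟨P j, hPh j, hPA j⟩) hc' (I := {0}) ?_ ?_
      (fun i hi => hi.2) (fun l => ?_)).congr ?_ ?_ hG'e, e, P, he, hPh, hP0, ?_, ?_⟩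
  · intro i hi
    rw [Set.mem_singleton_iff] at hi
    exact ⟨(), by rw [hi, ha0]; rfl⟩
  · intro k
    exact ⟨0, rfl, by rw [ha0]; rfl⟩
  · obtain ⟨j, hj0, hj⟩ := hb (Sum.inr l)
    exact ⟨j, ⟨hj0, l, hj⟩, hj⟩
  · intro Ω _ τ x _
    rw [hT']
    simp only [eval₂_pow, eval₂_X, exists_const]
    exact ⟨fun h h0 => h (by rw [h0, zero_pow (by omega)]), fun h => pow_ne_zero _ h⟩
  · intro L _ _ _ x w
    unfold RedNotIn
    rw [hT']
    simp only [eval₂_pow, eval₂_X, exists_const, map_pow]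
    refine exists_congr fun b => and_congr_right fun _ => and_congr_right fun _ => ?_
    exact ⟨fun h => (pow_eq_one_iff.1 h).resolve_right (by omega), fun h => by rw [h, one_pow]⟩
  · intro i
    obtain ⟨l, hl⟩ := hunitv i.succ
    obtain ⟨j, hj⟩ := box_unit ha (bound_ge hm (le_refl (bound m))).2 l
    have hPj : P j = X 0 ^ (e - 1) * X i.succ := by
      apply hvinj _ _ (hPh j) (hone _)
      rw [← hPA j, hj, hl]
    obtain ⟨j', rfl⟩ : ∃ j', j = Fin.succ j' := by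
      refine Fin.exists_succ_eq.2 ?_ |>.imp fun _ h => h.symm
      rintro rfl
      rw [hP0, hx0e] at hPj
      have h1 := mul_left_cancel₀ (pow_ne_zero _ (X_ne_zero 0)) hPj
      exact Fin.succ_ne_zero i (X_injective h1).symm
    exact ⟨j', hPj⟩
  · intro Ω _ τ x j
    unfold lins
    rw [hPA j]
    exact vec_eval hv (hPh j) τ x

end Pool.Agent.H441.DQ
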