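import Pool.Agent.H441.DQ.Emb

/-!
The Bombieri–Lang–Vojta equivalence for quasi-projective schemes and for intersections of diagonal
hypersurfaces minus coordinate subspaces.
-/

set_option autoImplicit false

namespace Pool.Agent.H441.DQ

open MvPolynomial NumberField IsDedekindDomain
open Pool.Agent.N254.SQ hiding Extends lin
open Pool.Agent.H441.DF (fibre_finite)
open scoped LinearAlgebra.Projectivization

/-- every entire curve in `V(F) ∖ V(T)` lies in `V(G)` -/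
def CurvesIn {K : Type} [Field K] {ι κ γ : Type} {n : ℕ} (σ : K →+* ℂ)
    (F : ι → MvPolynomial (Fin (n + 1)) (𝓞 K)) (T : κ → MvPolynomial (Fin (n + 1)) (𝓞 K))
    (G : γ → MvPolynomial (Fin (n + 1)) (𝓞 K)) : Prop :=
  ∀ f : ℂ → Fin (n + 1) → ℂ, Differentiable ℂ f → (∀ z, f z ≠ 0) →
    (∀ z i, eval₂ (σ.comp (algebraMap (𝓞 K) K)) (f z) (F i) = 0) →
    (∀ z, ∃ k, eval₂ (σ.comp (algebraMap (𝓞 K) K)) (f z) (T k) ≠ 0) →
    (∃ z w, ∀ c : ℂ, f w ≠ c • f z) →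
    ∀ z l, eval₂ (σ.comp (algebraMap (𝓞 K) K)) (f z) (G l) = 0

/-- for all finite extensions and all finite `S` only finitely many `S`-integral points of
`V(F) ∖ V(T)` are outside of `V(G)` -/
def PointsIn {K : Type} [Field K] {ι κ γ : Type} {n : ℕ}
    (F : ι → MvPolynomial (Fin (n + 1)) (𝓞 K)) (T : κ → MvPolynomial (Fin (n + 1)) (𝓞 K))
    (G : γ → MvPolynomial (Fin (n + 1)) (𝓞 K)) : Prop :=
  ∀ (L : Type) [Field L] [NumberField L] [Algebra K L] (S : Set (HeightOneSpectrum (𝓞 L))),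
    S.Finite → (quasiPoints F T L S \
      {P | ∀ l, eval₂ ((algebraMap K L).comp (algebraMap (𝓞 K) K)) P.rep (G l) = 0}).Finite

theorem quasi_iff {K : Type} [Field K] {ι κ γ : Type} {n : ℕ} (σ : K →+* ℂ)
    (F : ι → MvPolynomial (Fin (n + 1)) (𝓞 K)) (T : κ → MvPolynomial (Fin (n + 1)) (𝓞 K))
    (G : γ → MvPolynomial (Fin (n + 1)) (𝓞 K)) :
    QuasiBLV σ F T G ↔ (CurvesIn σ F T G ↔ PointsIn F T G) := Iff.rfl

section

variable {K : Type} [Field K] [NumberField K] {m n N k : ℕ} {ι κ γ : Type}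
  {F : ι → MvPolynomial (Fin (n + 1)) (𝓞 K)} {T : κ → MvPolynomial (Fin (n + 1)) (𝓞 K)}
  {G : γ → MvPolynomial (Fin (n + 1)) (𝓞 K)}
  {Φ : ∀ (Ω : Type) [Field Ω], (K →+* Ω) → (Fin (n + 1) → Ω) → Fin (N + 1) → Ω}
  {c : Fin k → Fin (N + 1) → 𝓞 K} {I J : Set (Fin (N + 1))}

/-- the coordinates as forms -/
noncomputable def coord (R : Type) [CommRing R] {N : ℕ} (I : Set (Fin (N + 1))) :
    I → MvPolynomial (Fin (N + 1)) R := fun i => X (i : Fin (N + 1))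

/-- the curves -/
theorem Emb.curvesIn (hm : 2 ≤ m) (hE : Emb m F T G Φ c I J) (σ : K →+* ℂ) :
    CurvesIn σ F T G ↔ CurvesIn σ (fun i => dform m (c i)) (coord (𝓞 K) I) (coord (𝓞 K) J) := by
  obtain ⟨e, hsm⟩ := hE.smul
  constructor
  · intro h f hf hf0 hfX hfT hnc
    obtain ⟨ζ, x, hζ, hxd, hx0, hxF, hfx⟩ := hE.curves σ f hf hf0 hfX hnc
    have hζ0 : ∀ j, ζ j ≠ 0 := by
      intro j h0
      have := hζ j
      rw [h0, zero_pow (by omega)] at this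
      exact zero_ne_one this
    obtain ⟨z₀, w₀, hnc⟩ := hnc
    have h1 := h x hxd hx0 hxF (fun z => by
      rw [← hE.onT ℂ σ (x z) (hx0 z)]
      obtain ⟨i, hi⟩ := hfT z
      refine ⟨i, i.2, fun h0 => hi ?_⟩
      unfold coord
      rw [eval₂_X, hfx, h0, mul_zero]) ⟨z₀, w₀, fun b hb => hnc (b ^ e) (funext fun j => by
        rw [hfx, hb, hsm, Pi.smul_apply, Pi.smul_apply, smul_eq_mul, smul_eq_mul, hfx]
        ring)⟩
    intro z j
    unfold coord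
    rw [eval₂_X, hfx, (hE.onG ℂ σ (x z) (hx0 z)).2 (h1 z) j j.2, mul_zero]
  · rintro h f hf hf0 hfF hfT ⟨z₀, w₀, hnc⟩ z
    have h1 := h (fun z => Φ ℂ σ (f z)) (hE.diff σ f hf) (fun z => hE.ne ℂ σ (f z) (hf0 z))
      (fun z => (hE.pts ℂ σ (f z) (hf0 z)).1 (hfF z)) (fun z => by
        obtain ⟨i, hi, h2⟩ := (hE.onT ℂ σ (f z) (hf0 z)).2 (hfT z)
        refine ⟨⟨i, hi⟩, ?_⟩
        unfold coord
        rw [eval₂_X]
        exact h2) ⟨z₀, w₀, fun b hb => by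
          obtain ⟨t, ht⟩ := hE.inj ℂ σ _ _ b (hf0 w₀) hb
          exact hnc t ht⟩ z
    refine (hE.onG ℂ σ (f z) (hf0 z)).1 fun j hj => ?_
    have h2 := h1 ⟨j, hj⟩
    unfold coord at h2
    rwa [eval₂_X] at h2

/-- the map of the points -/
noncomputable def Emb.phi (hE : Emb m F T G Φ c I J) {L : Type} [Field L] [Algebra K L]
    (P : ℙ L (Fin (n + 1) → L)) : ℙ L (Fin (N + 1) → L) :=
  Projectivization.mk L (Φ L (algebraMap K L) P.rep) (hE.ne L _ _ P.rep_nonzero)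

theorem Emb.phi_inj (hE : Emb m F T G Φ c I J) {L : Type} [Field L] [Algebra K L] :
    Function.Injective (hE.phi : ℙ L (Fin (n + 1) → L) → ℙ L (Fin (N + 1) → L)) := by
  intro P P' h
  unfold Emb.phi at h
  rw [Projectivization.mk_eq_mk_iff'] at h
  obtain ⟨c, hc⟩ := h
  obtain ⟨c', hc'⟩ := hE.inj L _ _ _ c P.rep_nonzero hc.symm
  rw [← P.mk_rep, ← P'.mk_rep, Projectivization.mk_eq_mk_iff']
  exact ⟨c', hc'.symm⟩

theorem Emb.phi_rep (hE : Emb m F T G Φ c I J) {L : Type} [Field L] [Algebra K L]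
    (P : ℙ L (Fin (n + 1) → L)) : ∃ u : L, u ≠ 0 ∧
      (hE.phi P).rep = u • Φ L (algebraMap K L) P.rep := by
  obtain ⟨u, hu⟩ := Projectivization.exists_smul_eq_mk_rep L (Φ L (algebraMap K L) P.rep)
    (hE.ne L _ _ P.rep_nonzero)
  exact ⟨u, u.ne_zero, hu.symm⟩

/-- points of `V` are points of `X` -/
theorem Emb.points_of (hm : 2 ≤ m) (hE : Emb m F T G Φ c I J)
    (h : PointsIn (fun i => dform m (c i)) (coord (𝓞 K) I) (coord (𝓞 K) J)) :
    PointsIn F T G := by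
  intro L _ _ _ S hS
  refine Set.Finite.of_finite_image ((h L S hS).subset ?_) hE.phi_inj.injOn
  rintro _ ⟨P, ⟨⟨hPF, hPT, hPR⟩, hPG⟩, rfl⟩
  obtain ⟨u, hu0, hu⟩ := hE.phi_rep P
  refine ⟨⟨?_, ?_, ?_⟩, fun hq => hPG ?_⟩
  · intro i
    rw [hu, zb_scale (algebraMap K L) (dform_hom _),
      (hE.pts L _ _ P.rep_nonzero).1 hPF i, mul_zero]
  · obtain ⟨i, hi, h2⟩ := (hE.onT L _ _ P.rep_nonzero).2 hPT
    refine ⟨⟨i, hi⟩, ?_⟩
    unfold coord
    rw [eval₂_X, hu, Pi.smul_apply, smul_eq_mul]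
    exact mul_ne_zero hu0 h2
  · intro w hw
    unfold coord
    rw [hE.red L P.rep _ (u ^ m) P.rep_nonzero (pow_ne_zero _ hu0) (fun j => by
      rw [hu, Pi.smul_apply, smul_eq_mul, mul_pow])]
    exact hPR w hw
  · refine (hE.onG L _ _ P.rep_nonzero).1 fun j hj => ?_
    have h2 := hq ⟨j, hj⟩
    unfold coord at h2
    rw [eval₂_X, hu, Pi.smul_apply, smul_eq_mul] at h2
    exact (mul_eq_zero.1 h2).resolve_left hu0

/-- points of `X` in the copies of `V` -/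
theorem Emb.points_to (hm : 2 ≤ m) (hE : Emb m F T G Φ c I J)
    (hF : ∀ i, ∃ e, (F i).IsHomogeneous e) (hT : ∀ k, ∃ e, (T k).IsHomogeneous e)
    (hG : ∀ k, ∃ e, (G k).IsHomogeneous e) {κ₁ : Type}
    {Z : κ₁ → MvPolynomial (Fin (N + 1)) (𝓞 K)}
    (hZ : ∀ (Ω : Type) [Field Ω] (τ : K →+* Ω) (y : Fin (N + 1) → Ω), y ≠ 0 →
      (∀ i, eval₂ (τ.comp (algebraMap (𝓞 K) K)) y (dform m (c i)) = 0) →
      (∀ s, eval₂ (τ.comp (algebraMap (𝓞 K) K)) y (Z s) = 0) →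
      ∃ (x : Fin (n + 1) → Ω) (t : Ω), x ≠ 0 ∧ t ≠ 0 ∧
        (∀ i, eval₂ (τ.comp (algebraMap (𝓞 K) K)) x (F i) = 0) ∧
        ∀ j, y j ^ m = t * Φ Ω τ x j ^ m)
    (h1 : PointsIn (fun i => dform m (c i)) (coord (𝓞 K) I) Z) (h : PointsIn F T G) :
    PointsIn (fun i => dform m (c i)) (coord (𝓞 K) I) (coord (𝓞 K) J) := by
  intro L _ _ _ S hS
  obtain ⟨e, hsm⟩ := hE.smul
  refine ((h1 L S hS).union ((h L S hS).biUnion fun P' _ =>
    fibre_finite hm (fun j => Φ L (algebraMap K L) P'.rep j ^ m))).subset ?_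
  rintro P ⟨⟨hPX, hPT, hPR⟩, hPJ⟩
  by_cases hP1 : ∀ s, eval₂ ((algebraMap K L).comp (algebraMap (𝓞 K) K)) P.rep (Z s) = 0
  · right
    obtain ⟨x, t, hx0, ht, hxF, hyx⟩ := hZ L (algebraMap K L) P.rep P.rep_nonzero hPX hP1
    obtain ⟨u, hu⟩ := Projectivization.exists_smul_eq_mk_rep L x hx0
    have hu' : (Projectivization.mk L x hx0).rep = (u : L) • x := hu.symm
    have hu0 : (u : L) ≠ 0 := u.ne_zero
    rw [Set.mem_iUnion₂]
    -- the point in terms of the representative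
    have hy' : ∀ j, P.rep j ^ m = t * ((u : L)⁻¹ ^ e) ^ m *
        Φ L (algebraMap K L) (Projectivization.mk L x hx0).rep j ^ m := by
      intro j
      rw [hyx j, hu', hsm, Pi.smul_apply, smul_eq_mul, mul_pow]
      have h6 : ((u : L)⁻¹ ^ e) ^ m * ((u : L) ^ e) ^ m = 1 := by
        rw [← mul_pow, ← mul_pow, inv_mul_cancel₀ hu0, one_pow, one_pow]
      linear_combination (-(t * Φ L (algebraMap K L) x j ^ m)) * h6
    have ht' : t * ((u : L)⁻¹ ^ e) ^ m ≠ 0 :=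
      mul_ne_zero ht (pow_ne_zero _ (pow_ne_zero _ (inv_ne_zero hu0)))
    have hrep := (Projectivization.mk L x hx0).rep_nonzero
    have hz : ∀ j, P.rep j = 0 ↔
        Φ L (algebraMap K L) (Projectivization.mk L x hx0).rep j = 0 := by
      intro j
      have h3 := hy' j
      constructor
      · intro h0
        rw [h0, zero_pow (by omega)] at h3
        exact eq_zero_of_pow_eq_zero ((mul_eq_zero.1 h3.symm).resolve_left ht')
      · intro h0
        rw [h0, zero_pow (by omega), mul_zero] at h3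
        exact eq_zero_of_pow_eq_zero h3
    refine ⟨Projectivization.mk L x hx0, ⟨⟨?_, ?_, ?_⟩, fun hxG => hPJ ?_⟩, _, ht', hy'⟩
    · intro i
      obtain ⟨d, hd⟩ := hF i
      rw [hu', zb_scale (algebraMap K L) hd, hxF i, mul_zero]
    · rw [← hE.onT L (algebraMap K L) _ hrep]
      obtain ⟨i, hi⟩ := hPT
      unfold coord at hi
      rw [eval₂_X] at hi
      exact ⟨i, i.2, fun h0 => hi ((hz i).2 h0)⟩
    · intro w hw
      rw [← hE.red L _ P.rep _ hrep ht' hy' w]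
      exact hPR w hw
    · intro j
      unfold coord
      rw [eval₂_X, hz]
      exact (hE.onG L (algebraMap K L) _ hrep).2 hxG j j.2
  · left
    exact ⟨⟨hPX, hPT, hPR⟩, hP1⟩

end

section main

variable {K : Type} [Field K] [NumberField K] (σ : K →+* ℂ) (D : Set (𝓞 K))

/-- **From curves to points.** -/
theorem implication (h1D : (1 : 𝓞 K) ∈ D)
    (hneg : ∀ x ∈ D, -x ∈ D) (hD : Submodule.span ℚ (algebraMap (𝓞 K) K '' D) = ⊤) {m : ℕ}
    (hm : 2 ≤ m)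
    (H : ∀ (N k : ℕ) (c : Fin k → Fin (N + 1) → 𝓞 K), (∀ i j, c i j = 0 ∨ c i j ∈ D) →
      ∀ I J : Set (Fin (N + 1)), CurvesIn σ (fun i => dform m (c i)) (coord (𝓞 K) I)
        (coord (𝓞 K) J) → PointsIn (fun i => dform m (c i)) (coord (𝓞 K) I) (coord (𝓞 K) J))
    {n : ℕ} {ι κ γ : Type} [Finite ι] [Finite κ]
    (F : ι → MvPolynomial (Fin (n + 1)) (𝓞 K)) (T : κ → MvPolynomial (Fin (n + 1)) (𝓞 K))
    (G : γ → MvPolynomial (Fin (n + 1)) (𝓞 K)) (hF : ∀ i, ∃ e, (F i).IsHomogeneous e)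
    (hT : ∀ i, ∃ e, (T i).IsHomogeneous e) (hG : ∀ i, ∃ e, (G i).IsHomogeneous e)
    (h : CurvesIn σ F T G) : PointsIn F T G := by
  obtain ⟨N, k, Φ, c, I, J, hc, hE⟩ := exists_emb D h1D hneg hD hm F T G hF hT hG
  exact hE.points_of hm (H N k c hc I J ((hE.curvesIn hm σ).1 h))

/-- **From points to curves.** -/
theorem converse (h1D : (1 : 𝓞 K) ∈ D)
    (hneg : ∀ x ∈ D, -x ∈ D) (hD : Submodule.span ℚ (algebraMap (𝓞 K) K '' D) = ⊤) {m : ℕ}
    (hm : 2 ≤ m)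
    (H : ∀ (N k : ℕ) (c : Fin k → Fin (N + 1) → 𝓞 K), (∀ i j, c i j = 0 ∨ c i j ∈ D) →
      ∀ I J : Set (Fin (N + 1)), QuasiBLV σ (fun i => dform m (c i)) (coord (𝓞 K) I)
        (coord (𝓞 K) J))
    {n : ℕ} {ι κ γ : Type} [Finite ι] [Finite κ]
    (F : ι → MvPolynomial (Fin (n + 1)) (𝓞 K)) (T : κ → MvPolynomial (Fin (n + 1)) (𝓞 K))
    (G : γ → MvPolynomial (Fin (n + 1)) (𝓞 K)) (hF : ∀ i, ∃ e, (F i).IsHomogeneous e)
    (hT : ∀ i, ∃ e, (T i).IsHomogeneous e) (hG : ∀ i, ∃ e, (G i).IsHomogeneous e)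
    (h : PointsIn F T G) : CurvesIn σ F T G := by
  obtain ⟨N, k, Φ, c, I, J, hc, hE⟩ := exists_emb D h1D hneg hD hm F T G hF hT hG
  obtain ⟨κ₁, _, Z, hZh, hZa, hZb⟩ := hE.copies
  have h1 : PointsIn (fun i => dform m (c i)) (coord (𝓞 K) I) Z := by
    refine implication σ D h1D hneg hD hm (fun N k c hc I J => (H N k c hc I J).1)
      (fun i => dform m (c i)) (coord (𝓞 K) I) Z (fun i => ⟨m, dform_hom _⟩)
      (fun i => ⟨1, isHomogeneous_X _ _⟩) hZh ?_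
    intro f hf hf0 hfX _ hnc z s
    obtain ⟨ζ, x, hζ, hxd, hx0, hxF, hfx⟩ := hE.curves σ f hf hf0 hfX hnc
    refine hZa ℂ σ (x z) (f z) 1 (hxF z) (fun j => ?_) s
    rw [hfx, mul_pow, hζ]
  exact (hE.curvesIn hm σ).2 ((H N k c hc I J).2 (hE.points_to hm hF hT hG hZb h1 h))

end main

end Pool.Agent.H441.DQ
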