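import Pool.Agent.H441.DQ.Copy
import Pool.Graph.R_pool_sql_team_seeded_63374d34.N254.SQ.Zred
import Pool.Graph.R_pool_sql_team_seeded_63374d34.N254.SQ.Zblv

/-!
Forms over the ring of integers as linear forms in the monomials; reductions of points.
-/

set_option autoImplicit false

namespace Pool.Agent.H441.DQ

open MvPolynomial NumberField IsDedekindDomain
open Pool.Agent.N254.SQ hiding Extends lin
open Pool.Agent.H441.DF (bound)

section vec

variable {K : Type} [Field K] {n M e : ℕ} {v : Fin (M + 1) → Fin (n + 1) → ℕ}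

/-- the coefficients of a form in the monomials given by `v` -/
noncomputable def vec {R : Type} [CommRing R] [Algebra R K] (v : Fin (M + 1) → Fin (n + 1) → ℕ)
    (P : MvPolynomial (Fin (n + 1)) R) : Fin (M + 1) → K :=
  fun l => algebraMap R K (coeff (Finsupp.equivFunOnFinite.symm (v l)) P)

theorem vec_eval {R : Type} [CommRing R] [Algebra R K] (hv : Mon n M e v)
    {P : MvPolynomial (Fin (n + 1)) R} (hP : P.IsHomogeneous e) {Ω : Type} [Field Ω] (τ : K →+* Ω)
    (x : Fin (n + 1) → Ω) :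
    ∑ l, τ (vec (K := K) v P l) * ver v x l = eval₂ (τ.comp (algebraMap R K)) x P := by
  classical
  have hinj : Function.Injective fun l => (Finsupp.equivFunOnFinite.symm (v l) :
      Fin (n + 1) →₀ ℕ) := fun l l' h =>
    hv.inj (Finsupp.equivFunOnFinite.symm.injective h)
  rw [eval₂_eq']
  have h1 : ∑ l, τ (vec (K := K) v P l) * ver v x l =
      ∑ s ∈ Finset.univ.image fun l => (Finsupp.equivFunOnFinite.symm (v l) :
        Fin (n + 1) →₀ ℕ), (τ.comp (algebraMap R K)) (coeff s P) * ∏ i, x i ^ s i := by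
    rw [Finset.sum_image (fun a _ b _ h => hinj h)]
    refine Finset.sum_congr rfl fun l _ => ?_
    rfl
  rw [h1]
  symm
  apply Finset.sum_subset
  · intro s hs
    rw [Finset.mem_image]
    have h2 := hP (mem_support_iff.1 hs)
    rw [Finsupp.weight_apply, Finsupp.sum_fintype _ _ (fun _ => by simp)] at h2
    obtain ⟨l, hl⟩ := hv.surj (fun i => s i) (by simpa using h2)
    refine ⟨l, Finset.mem_univ _, ?_⟩
    rw [hl]
    ext i
    rfl
  · intro s _ hs
    rw [notMem_support_iff.1 hs, map_zero, zero_mul]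

end vec

section red

variable {K : Type} [Field K]

/-- the values of forms over the integers at points with bounded coordinates -/
theorem val_le {L : Type} [Field L] [NumberField L] [Algebra K L] {n e : ℕ}
    (v : HeightOneSpectrum (𝓞 L)) {P : MvPolynomial (Fin (n + 1)) (𝓞 K)} (hP : P.IsHomogeneous e)
    (x : Fin (n + 1) → L) {μ : WithZero (Multiplicative ℤ)} (hx : ∀ j, v.valuation L (x j) ≤ μ) :
    v.valuation L (eval₂ ((algebraMap K L).comp (algebraMap (𝓞 K) K)) x P) ≤ μ ^ e := by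
  rw [eval₂_eq']
  apply Valuation.map_sum_le
  intro s hs
  have h1 : ∑ j, s j = e := by
    have h2 := hP (mem_support_iff.1 hs)
    rw [Finsupp.weight_apply, Finsupp.sum_fintype _ _ (fun _ => by simp)] at h2
    simpa using h2
  rw [map_mul, map_prod]
  have h2 : v.valuation L ((algebraMap K L).comp (algebraMap (𝓞 K) K) (coeff s P)) ≤ 1 := by
    have h3 : (algebraMap K L).comp (algebraMap (𝓞 K) K) (coeff s P) =
        algebraMap (𝓞 L) L (algebraMap (𝓞 K) (𝓞 L) (coeff s P)) := rfl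
    rw [h3]
    exact v.valuation_le_one _
  have h3 : ∏ j, v.valuation L (x j ^ s j) ≤ μ ^ e := by
    rw [← h1, ← Finset.prod_pow_eq_pow_sum]
    refine Finset.prod_le_prod' fun j _ => ?_
    rw [map_pow]
    exact pow_le_pow_left₀ zero_le (hx j) _
  calc _ ≤ 1 * μ ^ e := mul_le_mul' h2 h3
    _ = μ ^ e := one_mul _

/-- the multiples of forms of a given degree -/
theorem exists_mult {n e : ℕ} {κ : Type} [Finite κ] (T : κ → MvPolynomial (Fin (n + 1)) (𝓞 K))
    (hT : ∀ k, ∃ d ≤ e, (T k).IsHomogeneous d) :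
    ∃ (κ' : Type) (_ : Finite κ') (T' : κ' → MvPolynomial (Fin (n + 1)) (𝓞 K)),
      (∀ k, (T' k).IsHomogeneous e) ∧
      (∀ (Ω : Type) [Field Ω] (τ : 𝓞 K →+* Ω) (x : Fin (n + 1) → Ω), x ≠ 0 →
        ((∃ k, eval₂ τ x (T' k) ≠ 0) ↔ ∃ k, eval₂ τ x (T k) ≠ 0)) ∧
      ∀ (L : Type) [Field L] [NumberField L] [Algebra K L] (x : Fin (n + 1) → L)
        (v : HeightOneSpectrum (𝓞 L)), RedNotIn T' x v ↔ RedNotIn T x v := by
  classical
  choose d hd hTd using hT
  let κ' : Type := Σ k : κ, {α : Fin (n + 1) → Fin (e + 1) // ∑ j, (α j : ℕ) = e - d k}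
  let T' : κ' → MvPolynomial (Fin (n + 1)) (𝓞 K) := fun p => T p.1 * ∏ j, X j ^ (p.2.1 j : ℕ)
  have hev : ∀ (Ω : Type) [Field Ω] (τ : 𝓞 K →+* Ω) (x : Fin (n + 1) → Ω) (p : κ'),
      eval₂ τ x (T' p) = eval₂ τ x (T p.1) * ∏ j, x j ^ (p.2.1 j : ℕ) := by
    intro Ω _ τ x p
    simp only [T']
    rw [eval₂_mul, ← coe_eval₂Hom, map_prod]
    simp
  -- powers of one variable
  have hpow : ∀ (k : κ) (j : Fin (n + 1)), ∃ p : κ', p.1 = k ∧ ∀ (Ω : Type) [Field Ω]
      (x : Fin (n + 1) → Ω), ∏ i, x i ^ (p.2.1 i : ℕ) = x j ^ (e - d k) := by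
    intro k j
    refine ⟨⟨k, ⟨fun i => if i = j then ⟨e - d k, by omega⟩ else 0, ?_⟩⟩, rfl, ?_⟩
    · rw [Finset.sum_eq_single j]
      · simp
      · intro i _ hi
        simp [hi]
      · intro h
        exact absurd (Finset.mem_univ j) h
    · intro Ω _ x
      simp only
      rw [Finset.prod_eq_single j]
      · simp
      · intro i _ hi
        simp [hi]
      · intro h
        exact absurd (Finset.mem_univ j) h
  refine ⟨κ', inferInstance, T', ?_, ?_, ?_⟩
  · rintro ⟨k, α, hα⟩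
    have h1 : (∏ j, X j ^ (α j : ℕ) : MvPolynomial (Fin (n + 1)) (𝓞 K)).IsHomogeneous
        (∑ j, 1 * (α j : ℕ)) := IsHomogeneous.prod _ _ _ fun j _ => (isHomogeneous_X _ j).pow _
    simp only [one_mul, hα] at h1
    have h2 := (hTd k).mul h1
    have h3 : d k + (e - d k) = e := by
      have := hd k
      omega
    rwa [h3] at h2
  · intro Ω _ τ x hx
    constructor
    · rintro ⟨p, hp⟩
      rw [hev] at hp
      exact ⟨p.1, left_ne_zero_of_mul hp⟩
    · rintro ⟨k, hk⟩
      obtain ⟨j, hj⟩ : ∃ j, x j ≠ 0 := by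
        by_contra hcon
        push Not at hcon
        exact hx (funext hcon)
      obtain ⟨p, rfl, hp⟩ := hpow k j
      refine ⟨p, ?_⟩
      rw [hev, hp]
      exact mul_ne_zero hk (pow_ne_zero _ hj)
  · intro L _ _ _ x v
    constructor
    · rintro ⟨c, h1, h2, p, hp⟩
      refine ⟨c, h1, h2, p.1, ?_⟩
      rw [hev, map_mul, map_prod] at hp
      have h3 : v.valuation L (eval₂ ((algebraMap K L).comp (algebraMap (𝓞 K) K))
          (fun j => c * x j) (T p.1)) ≤ 1 := by
        have := val_le v (hTd p.1) (fun j => c * x j) (μ := 1) h1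
        rwa [one_pow] at this
      have h4 : ∏ j, v.valuation L ((c * x j) ^ (p.2.1 j : ℕ)) ≤ 1 := by
        refine Finset.prod_le_one' fun j _ => ?_
        rw [map_pow]
        exact pow_le_one₀ zero_le (h1 j)
      refine le_antisymm h3 ?_
      rw [← hp]
      calc _ ≤ v.valuation L (eval₂ ((algebraMap K L).comp (algebraMap (𝓞 K) K))
          (fun j => c * x j) (T p.1)) * 1 := mul_le_mul_right h4 _
        _ = _ := mul_one _
    · rintro ⟨c, h1, ⟨j, hj⟩, k, hk⟩
      obtain ⟨p, rfl, hp⟩ := hpow k j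
      refine ⟨c, h1, ⟨j, hj⟩, p, ?_⟩
      rw [hev, hp, map_mul, map_pow, hj, one_pow, mul_one, hk]

/-- **reductions of points of the diagonal hypersurfaces** -/
theorem red_iff {m n M e N : ℕ} (hm : m ≠ 0) {v : Fin (M + 1) → Fin (n + 1) → ℕ}
    (hv : Mon n M e v) (A : Fin (N + 1) → Fin (M + 1) → K)
    {κ : Type} (T : κ → MvPolynomial (Fin (n + 1)) (𝓞 K)) (hT : ∀ k, (T k).IsHomogeneous e)
    (hunit : ∀ l, ∃ j, A j = Pi.single l 1)
    (hA : ∀ j, ∃ P : MvPolynomial (Fin (n + 1)) (𝓞 K), P.IsHomogeneous e ∧ A j = vec v P)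
    (I : Set (Fin (N + 1))) (hI1 : ∀ i ∈ I, ∃ k, A i = vec v (T k))
    (hI2 : ∀ k, ∃ i ∈ I, A i = vec v (T k))
    {L : Type} [Field L] [NumberField L] [Algebra K L] {x : Fin (n + 1) → L} (hx : x ≠ 0)
    {y : Fin (N + 1) → L} {t : L} (ht : t ≠ 0)
    (hy : ∀ j, y j ^ m = t * lins (algebraMap K L) A (ver v x) j ^ m)
    (w : HeightOneSpectrum (𝓞 L)) :
    RedNotIn (fun i : I => (X (i : Fin (N + 1)) : MvPolynomial (Fin (N + 1)) (𝓞 K))) y w ↔
      RedNotIn T x w := by
  classical
  set φ : 𝓞 K →+* L := (algebraMap K L).comp (algebraMap (𝓞 K) K) with hφ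
  obtain ⟨j0, -, hj0⟩ := Finset.exists_max_image (Finset.univ : Finset (Fin (n + 1)))
    (fun j => w.valuation L (x j)) ⟨0, Finset.mem_univ _⟩
  have hmax : ∀ j, w.valuation L (x j) ≤ w.valuation L (x j0) := fun j =>
    hj0 j (Finset.mem_univ j)
  have hx0 : x j0 ≠ 0 := by
    intro h0
    apply hx
    funext j
    have h2 := hmax j
    rw [h0, map_zero] at h2
    exact (Valuation.zero_iff _).1 (le_antisymm h2 zero_le)
  set μ := w.valuation L (x j0) with hμ
  have hμ0 : μ ≠ 0 := (Valuation.ne_zero_iff _).2 hx0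
  -- the linear forms
  have hval : ∀ j (P : MvPolynomial (Fin (n + 1)) (𝓞 K)), P.IsHomogeneous e → A j = vec v P →
      lins (algebraMap K L) A (ver v x) j = eval₂ φ x P := by
    intro j P hP hAj
    unfold lins
    rw [hAj]
    exact vec_eval hv hP (algebraMap K L) x
  have hle : ∀ j, w.valuation L (lins (algebraMap K L) A (ver v x) j) ≤ μ ^ e := by
    intro j
    obtain ⟨P, hP, hAj⟩ := hA j
    rw [hval j P hP hAj]
    exact val_le w hP x hmax
  obtain ⟨a0, ha0⟩ := zr_single hv j0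
  obtain ⟨j1, hj1⟩ := hunit a0
  have hj1v : lins (algebraMap K L) A (ver v x) j1 = x j0 ^ e := by
    rw [lins_unit _ hj1, ha0]
  have hyv : ∀ j, w.valuation L (y j) ^ m =
      w.valuation L t * w.valuation L (lins (algebraMap K L) A (ver v x) j) ^ m := by
    intro j
    rw [← map_pow, hy j, map_mul, map_pow]
  have hy1 : w.valuation L (y j1) ^ m = w.valuation L t * (μ ^ e) ^ m := by
    rw [hyv, hj1v, map_pow]
  have ht0 : w.valuation L t ≠ 0 := (Valuation.ne_zero_iff _).2 ht
  have hyle : ∀ j, w.valuation L (y j) ≤ w.valuation L (y j1) := by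
    intro j
    apply le_of_pow_le_pow_left₀ hm zero_le
    rw [hyv, hy1]
    exact mul_le_mul_right (pow_le_pow_left₀ zero_le (hle j) m) _
  have hy10 : y j1 ≠ 0 := by
    intro h0
    rw [h0, map_zero, zero_pow hm] at hy1
    exact mul_ne_zero ht0 (pow_ne_zero _ (pow_ne_zero _ hμ0)) hy1.symm
  have hy1v : w.valuation L (y j1) ≠ 0 := (Valuation.ne_zero_iff _).2 hy10
  constructor
  · rintro ⟨c, h1, ⟨j, hj⟩, ⟨i, hi⟩, hci⟩
    rw [eval₂_X] at hci
    obtain ⟨k, hk⟩ := hI1 i hi
    refine ⟨(x j0)⁻¹, fun j => ?_, ⟨j0, ?_⟩, k, ?_⟩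
    · rw [map_mul, map_inv₀]
      calc μ⁻¹ * w.valuation L (x j) ≤ μ⁻¹ * μ := mul_le_mul_right (hmax j) _
        _ = 1 := inv_mul_cancel₀ hμ0
    · rw [inv_mul_cancel₀ hx0, map_one]
    · rw [zr_scale φ (hT k), map_mul, map_pow, map_inv₀]
      -- the valuation of `c`
      have hc1 : w.valuation L c * w.valuation L (y j1) = 1 := by
        apply le_antisymm
        · have := h1 j1
          rwa [map_mul] at this
        · rw [← hj, map_mul]
          exact mul_le_mul_right (hyle j) _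
      have hci' : w.valuation L c * w.valuation L (y i) = 1 := by rwa [map_mul] at hci
      have hc0 : w.valuation L c ≠ 0 := by
        intro h0
        rw [h0, zero_mul] at hc1
        exact zero_ne_one hc1
      have h2 : w.valuation L (y i) = w.valuation L (y j1) :=
        mul_left_cancel₀ hc0 (hci'.trans hc1.symm)
      have h3 : w.valuation L (lins (algebraMap K L) A (ver v x) i) ^ m = (μ ^ e) ^ m := by
        have h4 := hyv i
        rw [h2, hy1] at h4
        exact (mul_left_cancel₀ ht0 h4).symm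
      have h5 : w.valuation L (eval₂ φ x (T k)) = μ ^ e := by
        rw [← hval i (T k) (hT k) hk]
        exact (pow_left_inj₀ zero_le zero_le hm).1 h3
      rw [h5, ← mul_pow, ← hμ, inv_mul_cancel₀ hμ0, one_pow]
  · rintro ⟨c, h1, ⟨j, hj⟩, k, hk⟩
    obtain ⟨i, hi, hik⟩ := hI2 k
    have hc1 : w.valuation L c * μ = 1 := by
      apply le_antisymm
      · have := h1 j0
        rwa [map_mul] at this
      · rw [← hj, map_mul]
        exact mul_le_mul_right (hmax j) _
    have hcμ : w.valuation L c = μ⁻¹ := eq_inv_of_mul_eq_one_left hc1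
    rw [zr_scale φ (hT k), map_mul, map_pow, hcμ] at hk
    have h5 : w.valuation L (eval₂ φ x (T k)) = μ ^ e := by
      have h6 : μ⁻¹ ^ e ≠ 0 := pow_ne_zero _ (inv_ne_zero hμ0)
      apply mul_left_cancel₀ h6
      rw [hk, ← mul_pow, inv_mul_cancel₀ hμ0, one_pow]
    refine ⟨(y j1)⁻¹, fun j => ?_, ⟨j1, ?_⟩, ⟨i, hi⟩, ?_⟩
    · rw [map_mul, map_inv₀]
      calc (w.valuation L (y j1))⁻¹ * w.valuation L (y j)
          ≤ (w.valuation L (y j1))⁻¹ * w.valuation L (y j1) := mul_le_mul_right (hyle j) _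
        _ = 1 := inv_mul_cancel₀ hy1v
    · rw [inv_mul_cancel₀ hy10, map_one]
    · rw [eval₂_X, map_mul, map_inv₀]
      have h6 : w.valuation L (y i) = w.valuation L (y j1) := by
        apply (pow_left_inj₀ zero_le zero_le hm).1
        rw [hyv, hy1, hval i (T k) (hT k) hik, h5]
      rw [h6, inv_mul_cancel₀ hy1v]

end red

end Pool.Agent.H441.DQ
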